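import Pool.Agent.helper86.OF.SpecX

/-!
# Edge colouring of dense critical graphs: KB2 (two stuck vertices)
-/

open scoped BigOperators

namespace Pool.Agent.OF

noncomputable section

open Classical

/-- Exchange of a matching on a set closed under it. -/
lemma KB2_gen {V : Type} {C : SimpleGraph V} {m μ : V → V} {T : Finset V}
    (hc : Chg C m μ T) (F : Finset V) (σ : V → V) (hσF : ∀ v ∈ F, σ v ∈ F)
    (hσ : ∀ v ∈ F, σ (σ v) = v) (hμF : ∀ v ∈ F, μ v ∈ F) (hmF : ∀ v ∈ F, m v ∈ T ∪ F)
    (hE : ∀ v ∈ F, C.Adj v (σ v)) :
    Chg C m (fun v => if v ∈ F then σ v else μ v) (T ∪ F) := by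
  refine ⟨?_, ?_, ?_, ?_⟩
  · intro v
    by_cases hv : v ∈ F
    · simp only [hv, if_true, hσF v hv]
      exact hσ v hv
    · have h1 : μ v ∉ F := by
        intro h
        have := hμF _ h
        rw [hc.inv v] at this
        exact hv this
      simp only [hv, if_false, h1]
      exact hc.inv v
  · intro v hv
    rw [Finset.mem_union, not_or] at hv
    simp only [hv.2, if_false]
    exact hc.off v hv.1
  · intro v hv
    rw [Finset.mem_union] at hv
    rcases hv with hv | hv
    · exact Finset.mem_union_left _ (hc.clo v hv)
    · exact hmF v hv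
  · intro v hv
    by_cases h : v ∈ F
    · simp only [h, if_true]
      exact Or.inl (hE v h)
    · simp only [h, if_false] at hv ⊢
      exact hc.edg v hv

/-- The vertices which can be used at a stuck vertex. -/
def KB2_P {V : Type} [Fintype V] (C : SimpleGraph V) (m : V → V) (X S T : Finset V) (ε : ℝ)
    (u : V) : Finset V :=
  Finset.univ.filter fun b => b ∉ S ∧ b ∉ T ∧ C.Adj u b ∧ m b ≠ b ∧ m b ∈ X ∧ m b ∉ S ∧
    (b ∈ X ∨ dns m X ε)

lemma KB2_card {V : Type} [Fintype V] {A X Z S T : Finset V} {C : SimpleGraph V} {m : V → V}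
    {ε : ℝ} (hK : KCtx A X Z C m S ε)
    (hT : ((T.card : ℝ) + 10) ≤ ε / 4 * Fintype.card V) {u : V} (hu : u ∈ X)
    (hs : stk C m X S ε u) :
    (1 / 4 + 2 * ε) * Fintype.card V ≤ ((KB2_P C m X S T ε u).card : ℝ) := by
  set N : ℝ := (Fintype.card V : ℝ) with hN
  have h0 := hK.dgc u hu
  have hSc := hK.szS
  rw [← hN] at h0 hSc
  unfold stk at hs
  rw [← hN] at hs
  set D : Finset V := if dns m X ε then ∅ else (X.filter fun x => m x ∉ X).image m with hD
  have hDc : (D.card : ℝ) ≤ ε / 2 * N := by
    rw [hD]
    split_ifs with h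
    · have : 0 ≤ N := Nat.cast_nonneg _
      have := hK.e0
      simp only [Finset.card_empty, Nat.cast_zero]
      positivity
    · unfold dns at h
      push Not at h
      have h2 : (((X.filter fun x => m x ∉ X).image m).card : ℝ) ≤
          ((X.filter fun x => m x ∉ X).card : ℝ) := by
        exact_mod_cast Finset.card_image_le
      linarith
  have hsub : (Finset.univ.filter fun b => b ∉ S ∧ C.Adj u b) ⊆
      KB2_P C m X S T ε u ∪
      (Finset.univ.filter fun b => b ∉ S ∧ C.Adj u b ∧ (m b = b ∨ m b ∉ X)) ∪ T ∪ S.image m ∪ D := by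
    intro b hb
    simp only [Finset.mem_filter, Finset.mem_univ, true_and] at hb
    simp only [Finset.mem_union]
    by_cases h1 : m b = b ∨ m b ∉ X
    · left; left; left; right
      simp only [Finset.mem_filter, Finset.mem_univ, true_and]
      exact ⟨hb.1, hb.2, h1⟩
    push Not at h1
    by_cases h2 : b ∈ T
    · left; left; right; exact h2
    by_cases h3 : m b ∈ S
    · left; right
      rw [Finset.mem_image]
      exact ⟨m b, h3, hK.inv b⟩
    by_cases h4 : b ∈ X ∨ dns m X ε
    · left; left; left; left
      unfold KB2_P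
      simp only [Finset.mem_filter, Finset.mem_univ, true_and]
      exact ⟨hb.1, h2, hb.2, h1.1, h1.2, h3, h4⟩
    · right
      push Not at h4
      rw [hD, if_neg h4.2, Finset.mem_image]
      refine ⟨m b, ?_, hK.inv b⟩
      rw [Finset.mem_filter, hK.inv b]
      exact ⟨h1.2, h4.1⟩
  have hle := Finset.card_le_card hsub
  have hu1 := Finset.card_union_le (KB2_P C m X S T ε u ∪
      (Finset.univ.filter fun b => b ∉ S ∧ C.Adj u b ∧ (m b = b ∨ m b ∉ X)) ∪ T ∪ S.image m) D
  have hu2 := Finset.card_union_le (KB2_P C m X S T ε u ∪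
      (Finset.univ.filter fun b => b ∉ S ∧ C.Adj u b ∧ (m b = b ∨ m b ∉ X)) ∪ T) (S.image m)
  have hu3 := Finset.card_union_le (KB2_P C m X S T ε u ∪
      (Finset.univ.filter fun b => b ∉ S ∧ C.Adj u b ∧ (m b = b ∨ m b ∉ X))) T
  have hu4 := Finset.card_union_le (KB2_P C m X S T ε u)
      (Finset.univ.filter fun b => b ∉ S ∧ C.Adj u b ∧ (m b = b ∨ m b ∉ X))
  have hu5 : (S.image m).card ≤ S.card := Finset.card_image_le
  have htot : ((Finset.univ.filter fun b => b ∉ S ∧ C.Adj u b).card : ℝ) ≤
      ((KB2_P C m X S T ε u).card : ℝ) +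
      ((Finset.univ.filter fun b => b ∉ S ∧ C.Adj u b ∧ (m b = b ∨ m b ∉ X)).card : ℝ) +
      T.card + S.card + D.card := by
    have : (Finset.univ.filter fun b => b ∉ S ∧ C.Adj u b).card ≤
      (KB2_P C m X S T ε u).card +
      (Finset.univ.filter fun b => b ∉ S ∧ C.Adj u b ∧ (m b = b ∨ m b ∉ X)).card +
      T.card + S.card + D.card := by omega
    exact_mod_cast this
  have he := hK.e0
  have hN0 : 0 ≤ N := Nat.cast_nonneg _
  have : 0 ≤ ε * N := by positivity
  nlinarith

/-- The vertices on the side opposite to `y`. -/
lemma KB2_side {V : Type} [Fintype V] {A X Z S : Finset V} {C : SimpleGraph V} {m : V → V}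
    {ε : ℝ} (hK : KCtx A X Z C m S ε) (y : V) :
    ((Z.filter fun v => ¬ (v ∈ A ↔ y ∈ A)).card : ℝ) ≤ (1 / 2 + ε) * Fintype.card V := by
  by_cases hy : y ∈ A
  · have : (Z.filter fun v => ¬ (v ∈ A ↔ y ∈ A)) = Z \ A := by
      ext v
      simp only [Finset.mem_filter, Finset.mem_sdiff, hy, iff_true]
    rw [this]
    exact hK.szB
  · have : (Z.filter fun v => ¬ (v ∈ A ↔ y ∈ A)) = Z ∩ A := by
      ext v
      simp only [Finset.mem_filter, Finset.mem_inter, hy, iff_false, not_not]
    rw [this]
    exact hK.szA

/-- A vertex of `P(w)` whose partner is adjacent to a given vertex of `X` on the side of `w`. -/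
lemma KB2_meet {V : Type} [Fintype V] {A X Z S T : Finset V} {C : SimpleGraph V} {m : V → V}
    {ε : ℝ} (hK : KCtx A X Z C m S ε)
    (hT : ((T.card : ℝ) + 10) ≤ ε / 4 * Fintype.card V) {w p : V} (hw : w ∈ X) (hp : p ∈ X)
    (hs : stk C m X S ε w) (hwp : w ∈ A ↔ p ∈ A) :
    ∃ b ∈ KB2_P C m X S T ε w, C.Adj p (m b) := by
  have h1 := KB2_card hK hT hw hs
  have h2 := hK.dgc p hp
  have h3 := KB2_side hK p
  have hinj : Function.Injective m := fun a b hab => by
    have := congrArg m hab
    rwa [hK.inv, hK.inv] at this
  have hP : (KB2_P C m X S T ε w).image m ⊆ Z.filter fun v => ¬ (v ∈ A ↔ p ∈ A) := by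
    intro v hv
    rw [Finset.mem_image] at hv
    obtain ⟨b, hb, rfl⟩ := hv
    unfold KB2_P at hb
    simp only [Finset.mem_filter, Finset.mem_univ, true_and] at hb
    rw [Finset.mem_filter]
    refine ⟨hK.XZ hb.2.2.2.2.1, ?_⟩
    have h4 := (hK.cr w b hb.2.2.1).2.2
    have h5 := hK.inn b
    intro h6
    apply h4
    rw [hwp, ← h6, h5]
  have hQ : (Finset.univ.filter fun b => b ∉ S ∧ C.Adj p b) ⊆
      Z.filter fun v => ¬ (v ∈ A ↔ p ∈ A) := by
    intro v hv
    simp only [Finset.mem_filter, Finset.mem_univ, true_and] at hv
    rw [Finset.mem_filter]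
    have h4 := hK.cr p v hv.2
    exact ⟨h4.2.1, fun h => h4.2.2 h.symm⟩
  have hlt : (Z.filter fun v => ¬ (v ∈ A ↔ p ∈ A)).card <
      ((KB2_P C m X S T ε w).image m).card +
      (Finset.univ.filter fun b => b ∉ S ∧ C.Adj p b).card := by
    rw [Finset.card_image_of_injective _ hinj]
    have hreal : ((Z.filter fun v => ¬ (v ∈ A ↔ p ∈ A)).card : ℝ) <
      ((KB2_P C m X S T ε w).card : ℝ) +
      ((Finset.univ.filter fun b => b ∉ S ∧ C.Adj p b).card : ℝ) := by
      have hT0 : (0 : ℝ) ≤ T.card := Nat.cast_nonneg _
      have : 0 < ε * Fintype.card V := by linarith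
      nlinarith
    exact_mod_cast hreal
  obtain ⟨v, hv⟩ := Finset.inter_nonempty_of_card_lt_card_add_card hP hQ hlt
  rw [Finset.mem_inter, Finset.mem_image] at hv
  obtain ⟨⟨b, hb, rfl⟩, hv2⟩ := hv
  simp only [Finset.mem_filter, Finset.mem_univ, true_and] at hv2
  exact ⟨b, hb, hv2.2⟩

lemma KB2_xch {V : Type} [Fintype V] {m μ : V → V} {X F : Finset V} {σ : V → V} {n : ℕ}
    (hF : F.card ≤ n) :
    xch m (fun v => if v ∈ F then σ v else μ v) X ≤ xch m μ X + n := by
  unfold xch
  refine le_trans ?_ (Nat.add_le_add_left hF _)
  refine le_trans (Finset.card_le_card ?_) (Finset.card_union_le _ _)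
  intro x hx
  rw [Finset.mem_filter] at hx
  rw [Finset.mem_union, Finset.mem_filter]
  by_cases h : x ∈ F
  · right; exact h
  · left
    simp only [h, if_false] at hx
    exact hx

lemma KB2_xch0 {V : Type} [Fintype V] {m μ : V → V} {X F : Finset V} {σ : V → V}
    (hF : ∀ x ∈ F, x ∈ X → σ x ≠ m x → (σ x ∉ X ∨ m x ∉ X) →
      (μ x ≠ m x ∧ (μ x ∉ X ∨ m x ∉ X))) :
    xch m (fun v => if v ∈ F then σ v else μ v) X ≤ xch m μ X := by
  unfold xch
  refine Finset.card_le_card ?_
  intro x hx
  rw [Finset.mem_filter] at hx
  rw [Finset.mem_filter]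
  by_cases h : x ∈ F
  · simp only [h, if_true] at hx
    exact ⟨hx.1, hF x h hx.1 hx.2.1 hx.2.2⟩
  · simp only [h, if_false] at hx
    exact hx

theorem KB2 : KB2_stmt := by
  intro V _ A X Z S T C m μ ε hK hc hT u hu w hw huw hμu hμw hsu hsw
  have hTm : ∀ v, v ∉ T → m v ∉ T := by
    intro v hv h
    have := hc.clo _ h
    rw [hK.inv] at this
    exact hv this
  -- vertices of P are not among the uncovered vertices
  have hcov : ∀ v y, μ v = v → y ∉ T → m y ≠ y → y ≠ v := by
    intro v y hv hy hmy h
    subst h
    apply hmy
    rw [← hc.off y hy, hv]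
  have hum : m u = u ∨ u ∈ T := by
    by_cases h : u ∈ T
    · right; exact h
    · left; rw [← hc.off u h, hμu]
  have hwm : m w = w ∨ w ∈ T := by
    by_cases h : w ∈ T
    · right; exact h
    · left; rw [← hc.off w h, hμw]
  by_cases hside : w ∈ A ↔ u ∈ A
  · -- same side
    obtain ⟨b, hb, hbc⟩ := KB2_meet hK hT hu hw hsu hside.symm
    unfold KB2_P at hb
    simp only [Finset.mem_filter, Finset.mem_univ, true_and] at hb
    obtain ⟨hbS, hbT, hub, hbm, hmX, hmS, hbX⟩ := hb
    have hcT : m b ∉ T := hTm b hbT
    have hμb : μ b = m b := hc.off b hbT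
    have hμc : μ (m b) = b := by rw [hc.off _ hcT, hK.inv]
    have hmc : m (m b) ≠ m b := by rw [hK.inv]; exact fun h => hbm h.symm
    have n1 : b ≠ u := hcov u b hμu hbT hbm
    have n2 : b ≠ w := hcov w b hμw hbT hbm
    have n3 : m b ≠ u := hcov u _ hμu hcT hmc
    have n4 : m b ≠ w := hcov w _ hμw hcT hmc
    set c := m b with hcdef
    have hmc2 : m c = b := by rw [hcdef, hK.inv]
    let σ : V → V := fun v => if v = u then b else if v = b then u else if v = w then c else
      if v = c then w else v
    let F : Finset V := {u, b, w, c}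
    have s1 : σ u = b := by simp [σ]
    have s2 : σ b = u := by simp [σ, n1]
    have s3 : σ w = c := by simp [σ, huw.symm, n2.symm]
    have s4 : σ c = w := by simp [σ, n3, n4, hbm]
    have hF4 : F.card ≤ 6 := le_trans Finset.card_le_four (by norm_num)
    have hFm : ∀ v, v ∈ F ↔ v = u ∨ v = b ∨ v = w ∨ v = c := by
      intro v; simp only [F, Finset.mem_insert, Finset.mem_singleton]
    have fu : u ∈ F := by simp [F]
    have fb : b ∈ F := by simp [F]
    have fw : w ∈ F := by simp [F]
    have fc : c ∈ F := by simp [F]
    refine ⟨fun v => if v ∈ F then σ v else μ v, T ∪ F, ?_, Finset.subset_union_left, ?_, ?_, ?_,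
      ?_, ?_, KB2_xch hF4, ?_⟩
    · apply KB2_gen hc F σ
      · intro v hv
        rw [hFm] at hv
        rcases hv with rfl | rfl | rfl | rfl
        · rw [s1]; exact fb
        · rw [s2]; exact fu
        · rw [s3]; exact fc
        · rw [s4]; exact fw
      · intro v hv
        rw [hFm] at hv
        rcases hv with rfl | rfl | rfl | rfl
        · rw [s1, s2]
        · rw [s2, s1]
        · rw [s3, s4]
        · rw [s4, s3]
      · intro v hv
        rw [hFm] at hv
        rcases hv with rfl | rfl | rfl | rfl
        · rw [hμu]; exact fu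
        · rw [hμb]; exact fc
        · rw [hμw]; exact fw
        · rw [hμc]; exact fb
      · intro v hv
        rw [hFm] at hv
        rw [Finset.mem_union]
        rcases hv with rfl | rfl | rfl | rfl
        · rcases hum with h | h
          · right; rw [h]; exact fu
          · left; exact hc.clo _ h
        · right; exact fc
        · rcases hwm with h | h
          · right; rw [h]; exact fw
          · left; exact hc.clo _ h
        · right; rw [hmc2]; exact fb
      · intro v hv
        rw [hFm] at hv
        rcases hv with rfl | rfl | rfl | rfl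
        · rw [s1]; exact hub
        · rw [s2]; exact hub.symm
        · rw [s3]; exact hbc
        · rw [s4]; exact hbc.symm
    · refine le_trans (Finset.card_union_le _ _) ?_
      omega
    · intro x hx hμx
      by_cases h : x ∈ F
      · simp only [h, if_true]
        rw [hFm] at h
        rcases h with rfl | rfl | rfl | rfl
        · rw [s1]; exact n1
        · rw [s2]; exact n1.symm
        · rw [s3]; exact n4
        · rw [s4]; exact n4.symm
      · simp only [h, if_false]; exact hμx
    · simp only [fu, if_true]
      rw [s1]; exact n1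
    · simp only [fw, if_true]
      rw [s3]; exact n4
    · intro v hv
      rw [Finset.mem_union] at hv
      rcases hv with hv | hv
      · left; exact hv
      · rw [hFm] at hv
        rcases hv with rfl | rfl | rfl | rfl
        · right; left; rfl
        · right; right; right; exact hbS
        · right; right; left; rfl
        · right; right; right; exact hmS
    · intro hnd
      have hbX' : b ∈ X := by
        rcases hbX with h | h
        · exact h
        · exact absurd h hnd
      apply KB2_xch0
      intro x hx hxX h1 h2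
      rw [hFm] at hx
      rcases hx with rfl | rfl | rfl | rfl
      · rw [s1] at h2
        have h3 : m x ∉ X := h2.resolve_left (fun h => h hbX')
        refine ⟨?_, Or.inr h3⟩
        rw [hμu]
        intro h; rw [← h] at h3; exact h3 hxX
      · exfalso
        rw [s2] at h2
        rcases h2 with h2 | h2
        · exact h2 hu
        · exact h2 hmX
      · rw [s3] at h2
        have h3 : m x ∉ X := h2.resolve_left (fun h => h hmX)
        refine ⟨?_, Or.inr h3⟩
        rw [hμw]
        intro h; rw [← h] at h3; exact h3 hxX
      · exfalso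
        rw [s4, hmc2] at h2
        rcases h2 with h2 | h2
        · exact h2 hw
        · exact h2 hbX'
  · -- opposite sides
    have hcu := KB2_card hK hT hu hsu
    have hne : (KB2_P C m X S T ε u).Nonempty := by
      rw [← Finset.card_pos]
      have hT0 : (0 : ℝ) ≤ T.card := Nat.cast_nonneg _
      have he := hK.e0
      have h1 : 0 < ε * Fintype.card V := by linarith
      have h2 : (0 : ℝ) < Fintype.card V := by
        by_contra h
        push Not at h
        nlinarith
      have : (0 : ℝ) < ((KB2_P C m X S T ε u).card : ℝ) := by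
        refine lt_of_lt_of_le ?_ hcu
        positivity
      exact_mod_cast this
    obtain ⟨b, hb⟩ := hne
    unfold KB2_P at hb
    simp only [Finset.mem_filter, Finset.mem_univ, true_and] at hb
    obtain ⟨hbS, hbT, hub, hbm, hmX, hmS, hbX⟩ := hb
    have hpT : m b ∉ T := hTm b hbT
    have hμb : μ b = m b := hc.off b hbT
    have hμp : μ (m b) = b := by rw [hc.off _ hpT, hK.inv]
    have hmp' : m (m b) ≠ m b := by rw [hK.inv]; exact fun h => hbm h.symm
    have hbu := (hK.cr u b hub).2.2
    have hbp := hK.inn b
    have hwp : w ∈ A ↔ m b ∈ A := by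
      rw [hbp]
      tauto
    obtain ⟨a', ha, hpa⟩ := KB2_meet hK hT hw hmX hsw hwp
    unfold KB2_P at ha
    simp only [Finset.mem_filter, Finset.mem_univ, true_and] at ha
    obtain ⟨haS, haT, hwa, ham, hamX, hamS, haX⟩ := ha
    have haT' : m a' ∉ T := hTm a' haT
    have hμa' : μ a' = m a' := hc.off a' haT
    have hμa : μ (m a') = a' := by rw [hc.off _ haT', hK.inv]
    have hma' : m (m a') ≠ m a' := by rw [hK.inv]; exact fun h => ham h.symm
    have haw := (hK.cr w a' hwa).2.2
    have haa := hK.inn a'
    have n1 : b ≠ u := hcov u b hμu hbT hbm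
    have n2 : b ≠ w := hcov w b hμw hbT hbm
    have n3 : m b ≠ u := hcov u _ hμu hpT hmp'
    have n4 : m b ≠ w := hcov w _ hμw hpT hmp'
    have n5 : a' ≠ u := hcov u a' hμu haT ham
    have n6 : a' ≠ w := hcov w a' hμw haT ham
    have n7 : m a' ≠ u := hcov u _ hμu haT' hma'
    have n8 : m a' ≠ w := hcov w _ hμw haT' hma'
    have n9 : a' ≠ b := fun h => haw (by rw [h]; exact hwp.trans hbp)
    have n10 : a' ≠ m b := fun h => haw (by rw [h]; exact hwp)
    have n11 : m a' ≠ b := fun h => haw ((hwp.trans hbp).trans (by rw [← h]; exact haa))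
    have n12 : m a' ≠ m b := fun h => haw (hwp.trans (by rw [← h]; exact haa))
    set p := m b with hpdef
    set a := m a' with hadef
    have hmp2 : m p = b := by rw [hpdef, hK.inv]
    have hma2 : m a = a' := by rw [hadef, hK.inv]
    let σ : V → V := fun v => if v = u then b else if v = b then u else if v = w then a' else
      if v = a' then w else if v = p then a else if v = a then p else v
    let F : Finset V := {u, b, w, a', p, a}
    have s1 : σ u = b := by simp [σ]
    have s2 : σ b = u := by simp [σ, n1]
    have s3 : σ w = a' := by simp [σ, huw.symm, n2.symm]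
    have s4 : σ a' = w := by simp [σ, n5, n9, n6]
    have s5 : σ p = a := by simp [σ, n3, n4, hbm, n10.symm]
    have s6 : σ a = p := by simp [σ, n7, n11, n8, ham, n12]
    have hF4 : F.card ≤ 6 := Finset.card_le_six
    have hFm : ∀ v, v ∈ F ↔ v = u ∨ v = b ∨ v = w ∨ v = a' ∨ v = p ∨ v = a := by
      intro v; simp only [F, Finset.mem_insert, Finset.mem_singleton]
    have fu : u ∈ F := by simp [F]
    have fb : b ∈ F := by simp [F]
    have fw : w ∈ F := by simp [F]
    have fa' : a' ∈ F := by simp [F]
    have fp : p ∈ F := by simp [F]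
    have fa : a ∈ F := by simp [F]
    refine ⟨fun v => if v ∈ F then σ v else μ v, T ∪ F, ?_, Finset.subset_union_left, ?_, ?_, ?_,
      ?_, ?_, KB2_xch hF4, ?_⟩
    · apply KB2_gen hc F σ
      · intro v hv
        rw [hFm] at hv
        rcases hv with rfl | rfl | rfl | rfl | rfl | rfl
        · rw [s1]; exact fb
        · rw [s2]; exact fu
        · rw [s3]; exact fa'
        · rw [s4]; exact fw
        · rw [s5]; exact fa
        · rw [s6]; exact fp
      · intro v hv
        rw [hFm] at hv
        rcases hv with rfl | rfl | rfl | rfl | rfl | rfl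
        · rw [s1, s2]
        · rw [s2, s1]
        · rw [s3, s4]
        · rw [s4, s3]
        · rw [s5, s6]
        · rw [s6, s5]
      · intro v hv
        rw [hFm] at hv
        rcases hv with rfl | rfl | rfl | rfl | rfl | rfl
        · rw [hμu]; exact fu
        · rw [hμb]; exact fp
        · rw [hμw]; exact fw
        · rw [hμa']; exact fa
        · rw [hμp]; exact fb
        · rw [hμa]; exact fa'
      · intro v hv
        rw [hFm] at hv
        rw [Finset.mem_union]
        rcases hv with rfl | rfl | rfl | rfl | rfl | rfl
        · rcases hum with h | h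
          · right; rw [h]; exact fu
          · left; exact hc.clo _ h
        · right; exact fp
        · rcases hwm with h | h
          · right; rw [h]; exact fw
          · left; exact hc.clo _ h
        · right; exact fa
        · right; rw [hmp2]; exact fb
        · right; rw [hma2]; exact fa'
      · intro v hv
        rw [hFm] at hv
        rcases hv with rfl | rfl | rfl | rfl | rfl | rfl
        · rw [s1]; exact hub
        · rw [s2]; exact hub.symm
        · rw [s3]; exact hwa
        · rw [s4]; exact hwa.symm
        · rw [s5]; exact hpa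
        · rw [s6]; exact hpa.symm
    · refine le_trans (Finset.card_union_le _ _) ?_
      omega
    · intro x hx hμx
      by_cases h : x ∈ F
      · simp only [h, if_true]
        rw [hFm] at h
        rcases h with rfl | rfl | rfl | rfl | rfl | rfl
        · rw [s1]; exact n1
        · rw [s2]; exact n1.symm
        · rw [s3]; exact n6
        · rw [s4]; exact n6.symm
        · rw [s5]; exact n12
        · rw [s6]; exact n12.symm
      · simp only [h, if_false]; exact hμx
    · simp only [fu, if_true]
      rw [s1]; exact n1
    · simp only [fw, if_true]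
      rw [s3]; exact n6
    · intro v hv
      rw [Finset.mem_union] at hv
      rcases hv with hv | hv
      · left; exact hv
      · rw [hFm] at hv
        rcases hv with rfl | rfl | rfl | rfl | rfl | rfl
        · right; left; rfl
        · right; right; right; exact hbS
        · right; right; left; rfl
        · right; right; right; exact haS
        · right; right; right; exact hmS
        · right; right; right; exact hamS
    · intro hnd
      have hbX' : b ∈ X := by
        rcases hbX with h | h
        · exact h
        · exact absurd h hnd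
      have haX' : a' ∈ X := by
        rcases haX with h | h
        · exact h
        · exact absurd h hnd
      apply KB2_xch0
      intro x hx hxX h1 h2
      rw [hFm] at hx
      rcases hx with rfl | rfl | rfl | rfl | rfl | rfl
      · rw [s1] at h2
        have h3 : m x ∉ X := h2.resolve_left (fun h => h hbX')
        refine ⟨?_, Or.inr h3⟩
        rw [hμu]
        intro h; rw [← h] at h3; exact h3 hxX
      · exfalso
        rw [s2] at h2
        rcases h2 with h2 | h2
        · exact h2 hu
        · exact h2 hmX
      · rw [s3] at h2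
        have h3 : m x ∉ X := h2.resolve_left (fun h => h haX')
        refine ⟨?_, Or.inr h3⟩
        rw [hμw]
        intro h; rw [← h] at h3; exact h3 hxX
      · exfalso
        rw [s4] at h2
        rcases h2 with h2 | h2
        · exact h2 hw
        · exact h2 hamX
      · exfalso
        rw [s5, hmp2] at h2
        rcases h2 with h2 | h2
        · exact h2 hamX
        · exact h2 hbX'
      · exfalso
        rw [s6, hma2] at h2
        rcases h2 with h2 | h2
        · exact h2 hmX
        · exact h2 haX'

end

end Pool.Agent.OF
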