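import Pool.Agent.helper86.OF.SpecL

/-! # Module ALN: alignment of the colour classes (helper82) -/

open scoped BigOperators

namespace Pool.Agent.OF

noncomputable section

open Classical

/-- the vertex `x` is hit by the class `q` at the index `i` -/
def ALN_hit {V : Type} (G : SimpleGraph V) (c : Sym2 V → ℕ) (H : ℕ → Finset V) (q i : ℕ) (x : V) : Prop :=
  ∃ w ∈ H i, G.Adj x w ∧ c s(x, w) = q

/-- the number of hits -/
def ALN_cnt {V : Type} (G : SimpleGraph V) (c : Sym2 V → ℕ) (H : ℕ → Finset V) (f : ℕ → ℕ) (j : ℕ)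
    (x : V) : ℕ :=
  ((Finset.range j).filter fun i => ALN_hit G c H (f i) i x).card

section

variable {V : Type} [Fintype V] {G : SimpleGraph V} {k : ℕ} {c : Sym2 V → ℕ} {H : ℕ → Finset V}

theorem ALN_hit_card (hc : PEC G k c) (q i : ℕ) :
    (Finset.univ.filter fun x => ALN_hit G c H q i x).card ≤ (H i).card := by
  have h1 : ∀ x ∈ Finset.univ.filter fun x => ALN_hit G c H q i x, ∃ w ∈ H i, G.Adj x w ∧ c s(x, w) = q := by
    intro x hx
    exact (Finset.mem_filter.1 hx).2
  choose! w hw1 hw2 hw3 using h1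
  refine Finset.card_le_card_of_injOn w (fun x hx => hw1 x hx) ?_
  intro x hx x' hx' hxx
  have hx1 := hw2 x hx
  have hx1' := hw2 x' hx'
  have hx2 := hw3 x hx
  have hx2' := hw3 x' hx'
  rw [← hxx] at hx1' hx2'
  refine hc.2 (w x) x x' hx1.symm hx1'.symm ?_
  rw [Sym2.eq_swap, hx2, Sym2.eq_swap, hx2']

theorem ALN_sum (hc : PEC G k c) {U : ℕ} {f : ℕ → ℕ} {j : ℕ} (hjk : j ≤ k)
    (hH : ∀ i < k, (H i).card ≤ U) : ∑ x, ALN_cnt G c H f j x ≤ U * j := by
  unfold ALN_cnt
  simp only [Finset.card_filter]
  rw [Finset.sum_comm]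
  have h1 : ∀ i ∈ Finset.range j, (∑ x : V, if ALN_hit G c H (f i) i x then 1 else 0) ≤ U := by
    intro i hi
    rw [← Finset.card_filter]
    exact (ALN_hit_card hc (f i) i).trans (hH i (lt_of_lt_of_le (Finset.mem_range.1 hi) hjk))
  refine (Finset.sum_le_sum h1).trans ?_
  rw [Finset.sum_const, Finset.card_range, smul_eq_mul, mul_comm]

omit [Fintype V] in
theorem ALN_succ (f : ℕ → ℕ) (j q : ℕ) (x : V) :
    ALN_cnt G c H (Function.update f j q) (j + 1) x =
      ALN_cnt G c H f j x + (if ALN_hit G c H q j x then 1 else 0) := by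
  unfold ALN_cnt
  simp only [Finset.card_filter]
  rw [Finset.sum_range_succ, Function.update_self]
  congr 1
  refine Finset.sum_congr rfl fun i hi => ?_
  rw [Function.update_of_ne (Finset.mem_range.1 hi).ne]

theorem ALN_step (hc : PEC G k c) {U : ℕ} {τ : ℝ} (hτ : 0 < τ) (hN : 0 < Fintype.card V)
    (hkN : k ≤ Fintype.card V) (hH : ∀ i < k, (H i).card ≤ U) (j : ℕ) (hj : j ≤ k) :
    ∃ f : ℕ → ℕ, (∀ i < j, f i < k) ∧ (∀ i < j, ∀ i' < j, f i = f i' → i = i') ∧
      ∀ x, (ALN_cnt G c H f j x : ℝ) ≤
        τ * Fintype.card V / 2 + 1 + max 0 ((j : ℝ) + 2 * U ^ 2 / τ - k) := by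
  induction j with
  | zero =>
    refine ⟨fun i => i, fun i hi => absurd hi (Nat.not_lt_zero _), fun i hi => absurd hi (Nat.not_lt_zero _), ?_⟩
    intro x
    have h1 : ALN_cnt G c H (fun i => i) 0 x = 0 := by
      unfold ALN_cnt
      simp
    rw [h1]
    have h2 : (0 : ℝ) ≤ τ * Fintype.card V / 2 := by positivity
    have h3 := le_max_left (0 : ℝ) (((0 : ℕ) : ℝ) + 2 * U ^ 2 / τ - k)
    push_cast at h3 ⊢
    linarith
  | succ j ih =>
    obtain ⟨f, hf1, hf2, hf3⟩ := ih (by omega)
    set T : ℝ := τ * Fintype.card V / 2 with hT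
    have hNr : (0 : ℝ) < Fintype.card V := by exact_mod_cast hN
    have hTpos : 0 < T := by positivity
    set I : Finset ℕ := (Finset.range j).image f with hI
    have hIcard : I.card ≤ j := by
      have := Finset.card_image_le (s := Finset.range j) (f := f)
      rwa [Finset.card_range] at this
    have hnewf : ∀ q, q < k → q ∉ I → (∀ i < j + 1, Function.update f j q i < k) ∧
        (∀ i < j + 1, ∀ i' < j + 1, Function.update f j q i = Function.update f j q i' → i = i') := by
      intro q hq hqI
      have hne : ∀ i < j, f i ≠ q := by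
        intro i hi h
        exact hqI (Finset.mem_image.2 ⟨i, Finset.mem_range.2 hi, h⟩)
      constructor
      · intro i hi
        by_cases h : i = j
        · subst h
          rw [Function.update_self]
          exact hq
        · rw [Function.update_of_ne h]
          exact hf1 i (by omega)
      · intro i hi i' hi' h
        by_cases h1 : i = j
        · by_cases h2 : i' = j
          · rw [h1, h2]
          · exfalso
            rw [h1, Function.update_self, Function.update_of_ne h2] at h
            exact hne i' (by omega) h.symm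
        · by_cases h2 : i' = j
          · exfalso
            rw [h2, Function.update_self, Function.update_of_ne h1] at h
            exact hne i (by omega) h
          · rw [Function.update_of_ne h1, Function.update_of_ne h2] at h
            exact hf2 i (by omega) i' (by omega) h
    by_cases hcase : (j : ℝ) + 2 * U ^ 2 / τ < k
    · -- a good class exists
      set O : Finset V := Finset.univ.filter fun x => T ≤ (ALN_cnt G c H f j x : ℝ) with hO
      have hOcard : (O.card : ℝ) ≤ 2 * U / τ := by
        have h1 : (O.card : ℝ) * T ≤ ∑ x, (ALN_cnt G c H f j x : ℝ) := by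
          calc (O.card : ℝ) * T = ∑ x ∈ O, T := by rw [Finset.sum_const, nsmul_eq_mul]
            _ ≤ ∑ x ∈ O, (ALN_cnt G c H f j x : ℝ) :=
                Finset.sum_le_sum fun x hx => (Finset.mem_filter.1 hx).2
            _ ≤ ∑ x, (ALN_cnt G c H f j x : ℝ) :=
                Finset.sum_le_sum_of_subset_of_nonneg (Finset.subset_univ _)
                  fun x _ _ => Nat.cast_nonneg _
        have h2 : (∑ x, (ALN_cnt G c H f j x : ℝ)) ≤ U * j := by
          have := ALN_sum (f := f) hc (show j ≤ k by omega) hH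
          exact_mod_cast this
        have h3 : (U : ℝ) * j ≤ U * Fintype.card V := by
          have : j ≤ Fintype.card V := by omega
          have h4 : (j : ℝ) ≤ Fintype.card V := by exact_mod_cast this
          exact mul_le_mul_of_nonneg_left h4 (Nat.cast_nonneg _)
        have h5 : (O.card : ℝ) * T ≤ U * Fintype.card V := h1.trans (h2.trans h3)
        rw [le_div_iff₀ hτ]
        rw [hT] at h5
        have h6 : (O.card : ℝ) * τ * (Fintype.card V : ℝ) ≤ 2 * U * Fintype.card V := by
          nlinarith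
        exact le_of_mul_le_mul_right h6 hNr
      set Bad : Finset ℕ := ((H j) ×ˢ O).image fun p => c s(p.2, p.1) with hBad
      have hBadcard : (Bad.card : ℝ) ≤ 2 * U ^ 2 / τ := by
        have h1 : Bad.card ≤ (H j).card * O.card := by
          refine Finset.card_image_le.trans ?_
          rw [Finset.card_product]
        have h2 : (H j).card ≤ U := hH j (by omega)
        have h3 : (Bad.card : ℝ) ≤ (U : ℝ) * O.card := by
          have : Bad.card ≤ U * O.card := h1.trans (Nat.mul_le_mul_right _ h2)
          exact_mod_cast this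
        have h4 : (U : ℝ) * O.card ≤ U * (2 * U / τ) :=
          mul_le_mul_of_nonneg_left hOcard (Nat.cast_nonneg _)
        refine h3.trans (h4.trans (le_of_eq ?_))
        ring
      obtain ⟨q, hqk, hqI, hqB⟩ : ∃ q, q < k ∧ q ∉ I ∧ q ∉ Bad := by
        by_contra hcon
        push Not at hcon
        have h1 : Finset.range k ⊆ I ∪ Bad := by
          intro q hq
          rw [Finset.mem_range] at hq
          rw [Finset.mem_union]
          by_cases h : q ∈ I
          · exact Or.inl h
          · exact Or.inr (hcon q hq h)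
        have h2 := (Finset.card_le_card h1).trans (Finset.card_union_le _ _)
        rw [Finset.card_range] at h2
        have h3 : (k : ℝ) ≤ j + Bad.card := by
          have : k ≤ j + Bad.card := by omega
          exact_mod_cast this
        linarith
      refine ⟨Function.update f j q, (hnewf q hqk hqI).1, (hnewf q hqk hqI).2, fun x => ?_⟩
      rw [ALN_succ]
      have hmax1 := le_max_left (0 : ℝ) (((j + 1 : ℕ) : ℝ) + 2 * U ^ 2 / τ - k)
      by_cases hx : x ∈ O
      · have hnh : ¬ ALN_hit G c H q j x := by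
          rintro ⟨w, hw, hxw, hcw⟩
          apply hqB
          exact Finset.mem_image.2 ⟨(w, x), Finset.mem_product.2 ⟨hw, hx⟩, hcw⟩
        rw [if_neg hnh, Nat.add_zero]
        refine (hf3 x).trans ?_
        have : max (0 : ℝ) ((j : ℝ) + 2 * U ^ 2 / τ - k) ≤ max 0 (((j + 1 : ℕ) : ℝ) + 2 * U ^ 2 / τ - k) := by
          apply max_le_max le_rfl
          push_cast
          linarith
        linarith
      · have h1 : (ALN_cnt G c H f j x : ℝ) < T := by
          by_contra hcon
          exact hx (Finset.mem_filter.2 ⟨Finset.mem_univ _, not_lt.1 hcon⟩)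
        have h2 : ((if ALN_hit G c H q j x then 1 else 0 : ℕ) : ℝ) ≤ 1 := by
          split_ifs <;> norm_num
        push_cast at h2 hmax1 ⊢
        linarith
    · -- arbitrary class
      obtain ⟨q, hqk, hqI⟩ : ∃ q, q < k ∧ q ∉ I := by
        by_contra hcon
        push Not at hcon
        have h1 : Finset.range k ⊆ I := fun q hq => hcon q (Finset.mem_range.1 hq)
        have h2 := Finset.card_le_card h1
        rw [Finset.card_range] at h2
        omega
      refine ⟨Function.update f j q, (hnewf q hqk hqI).1, (hnewf q hqk hqI).2, fun x => ?_⟩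
      rw [ALN_succ]
      have h1 := hf3 x
      rw [not_lt] at hcase
      rw [max_eq_right (by linarith)] at h1
      have h2 : ((if ALN_hit G c H q j x then 1 else 0 : ℕ) : ℝ) ≤ 1 := by
        split_ifs <;> norm_num
      have hmax1 := le_max_right (0 : ℝ) (((j + 1 : ℕ) : ℝ) + 2 * U ^ 2 / τ - k)
      push_cast at h2 hmax1 ⊢
      linarith

end

/-- a permutation of `ℕ` from an injection of `{0, ..., k-1}` -/
theorem ALN_perm (k : ℕ) (f : ℕ → ℕ) (h1 : ∀ i < k, f i < k)
    (h2 : ∀ i < k, ∀ i' < k, f i = f i' → i = i') :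
    ∃ σ : Equiv.Perm ℕ, (∀ i < k, σ i = f i) ∧ ∀ i, i < k ↔ σ i < k := by
  have hsurj : ∀ q < k, ∃ i < k, f i = q := by
    have himg : (Finset.range k).image f = Finset.range k := by
      apply Finset.eq_of_subset_of_card_le
      · intro q hq
        obtain ⟨i, hi, rfl⟩ := Finset.mem_image.1 hq
        exact Finset.mem_range.2 (h1 i (Finset.mem_range.1 hi))
      · rw [Finset.card_image_of_injOn]
        intro i hi i' hi' h
        exact h2 i (Finset.mem_range.1 hi) i' (Finset.mem_range.1 hi') h
    intro q hq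
    have : q ∈ (Finset.range k).image f := by
      rw [himg]
      exact Finset.mem_range.2 hq
    obtain ⟨i, hi, hiq⟩ := Finset.mem_image.1 this
    exact ⟨i, Finset.mem_range.1 hi, hiq⟩
  let g : ℕ → ℕ := fun i => if i < k then f i else i
  have hg1 : ∀ i < k, g i = f i := fun i hi => if_pos hi
  have hg2 : ∀ i, ¬ i < k → g i = i := fun i hi => if_neg hi
  have hg3 : ∀ i, i < k ↔ g i < k := by
    intro i
    by_cases hi : i < k
    · rw [hg1 i hi]
      exact ⟨fun _ => h1 i hi, fun _ => hi⟩
    · rw [hg2 i hi]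
  have hbij : Function.Bijective g := by
    constructor
    · intro i i' h
      by_cases hi : i < k
      · have hi' : i' < k := (hg3 i').2 (h ▸ (hg3 i).1 hi)
        rw [hg1 i hi, hg1 i' hi'] at h
        exact h2 i hi i' hi' h
      · have hi' : ¬ i' < k := fun h' => hi ((hg3 i).2 (h ▸ (hg3 i').1 h'))
        rw [hg2 i hi, hg2 i' hi'] at h
        exact h
    · intro q
      by_cases hq : q < k
      · obtain ⟨i, hi, hiq⟩ := hsurj q hq
        exact ⟨i, by rw [hg1 i hi, hiq]⟩
      · exact ⟨q, hg2 q hq⟩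
  exact ⟨Equiv.ofBijective g hbij, hg1, hg3⟩

theorem ALN : ALN_stmt := by
  intro U τ hτ
  refine ⟨⌈(2 / τ) * (1 + 2 * U ^ 2 / τ)⌉₊ + 1, ?_⟩
  intro V _ G k c H hN0 hkN hc hH
  have hN : 0 < Fintype.card V := by omega
  obtain ⟨f, hf1, hf2, hf3⟩ := ALN_step hc hτ hN hkN hH k le_rfl
  obtain ⟨σ, hσ1, hσ2⟩ := ALN_perm k f hf1 hf2
  have hπ : ∀ i, i < k ↔ σ.symm i < k := by
    intro i
    rw [hσ2 (σ.symm i), Equiv.apply_symm_apply]
  refine ⟨σ.symm, hπ, ⟨?_, ?_⟩, ?_⟩
  · intro v w hvw
    exact (hπ _).1 (hc.1 v w hvw)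
  · intro v w w' h1 h2 h3
    exact hc.2 v w w' h1 h2 (σ.symm.injective h3)
  · intro x
    have h1 : ((Finset.range k).filter fun i => ∃ w ∈ H i, G.Adj x w ∧ σ.symm (c s(x, w)) = i).card =
        ALN_cnt G c H f k x := by
      unfold ALN_cnt ALN_hit
      apply congrArg Finset.card
      ext i
      simp only [Finset.mem_filter, Finset.mem_range]
      constructor
      · rintro ⟨hi, w, hw, hxw, h⟩
        refine ⟨hi, w, hw, hxw, ?_⟩
        rw [← hσ1 i hi, ← h, Equiv.apply_symm_apply]
      · rintro ⟨hi, w, hw, hxw, h⟩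
        refine ⟨hi, w, hw, hxw, ?_⟩
        rw [h, ← hσ1 i hi, Equiv.symm_apply_apply]
    rw [h1]
    refine (hf3 x).trans ?_
    have h2 : (k : ℝ) + 2 * U ^ 2 / τ - k = 2 * U ^ 2 / τ := by ring
    rw [h2, max_eq_right (by positivity)]
    have h3 : (2 / τ) * (1 + 2 * U ^ 2 / τ) ≤ (Fintype.card V : ℝ) := by
      refine (Nat.le_ceil _).trans ?_
      have : ⌈(2 / τ) * (1 + 2 * U ^ 2 / τ)⌉₊ ≤ Fintype.card V := by omega
      exact_mod_cast this
    have h4 : (1 + 2 * U ^ 2 / τ) ≤ τ * Fintype.card V / 2 := by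
      have h5 : τ / 2 * ((2 / τ) * (1 + 2 * U ^ 2 / τ)) ≤ τ / 2 * (Fintype.card V : ℝ) :=
        mul_le_mul_of_nonneg_left h3 (by positivity)
      have h6 : τ / 2 * ((2 / τ) * (1 + 2 * (U : ℝ) ^ 2 / τ)) = 1 + 2 * U ^ 2 / τ := by
        field_simp
      rw [h6] at h5
      linarith
    linarith

end

end Pool.Agent.OF
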