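import Pool.Agent.helper86.OF.SpecB

/-! # Module BL1: colouring the edge `x0 y0` (helper82) -/

open scoped BigOperators

namespace Pool.Agent.OF

noncomputable section

open Classical

section

variable {V : Type} {K : SimpleGraph V} {X : Finset V} {D : ℕ} {x0 y0 : V} {c : Sym2 V → ℕ} {γ : ℕ}

theorem BL1_adj {v w : V} : (Kd K x0 y0).Adj v w ↔ K.Adj v w ∧ s(v, w) ≠ s(x0, y0) := by
  rw [SimpleGraph.deleteEdges_adj, Set.mem_singleton_iff]

theorem BL1_mem {v w : V} (h : s(v, w) = s(x0, y0)) : v = x0 ∨ v = y0 := by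
  have : v ∈ s(x0, y0) := by
    rw [← h]
    exact Sym2.mem_mk_left v w
  exact Sym2.mem_iff.1 this

theorem BL1_pec (hc : PEC (Kd K x0 y0) D c) (hγ : γ < D) (hx : ¬ has (Kd K x0 y0) c x0 γ)
    (hy : ¬ has (Kd K x0 y0) c y0 γ) : PEC K D (Function.update c s(x0, y0) γ) := by
  have hn : ∀ v w w', s(v, w) = s(x0, y0) → s(v, w') ≠ s(x0, y0) → K.Adj v w' → c s(v, w') = γ → False := by
    intro v w w' h1 h2 h3 h4
    rcases BL1_mem h1 with h | h
    · subst h
      exact hx ⟨w', BL1_adj.2 ⟨h3, h2⟩, h4⟩
    · subst h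
      exact hy ⟨w', BL1_adj.2 ⟨h3, h2⟩, h4⟩
  constructor
  · intro v w hvw
    by_cases h : s(v, w) = s(x0, y0)
    · rw [h, Function.update_self]
      exact hγ
    · rw [Function.update_of_ne h]
      exact hc.1 v w (BL1_adj.2 ⟨hvw, h⟩)
  · intro v w w' h1 h2 h3
    by_cases h : s(v, w) = s(x0, y0)
    · by_cases h' : s(v, w') = s(x0, y0)
      · exact Sym2.congr_right.1 (h.trans h'.symm)
      · exfalso
        rw [h, Function.update_self, Function.update_of_ne h'] at h3
        exact hn v w w' h h' h2 h3.symm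
    · by_cases h' : s(v, w') = s(x0, y0)
      · exfalso
        rw [h', Function.update_self, Function.update_of_ne h] at h3
        exact hn v w' w h' h h1 h3
      · rw [Function.update_of_ne h, Function.update_of_ne h'] at h3
        exact hc.2 v w w' (BL1_adj.2 ⟨h1, h⟩) (BL1_adj.2 ⟨h2, h'⟩) h3

theorem BL1_has (hadj : K.Adj x0 y0) (v : V) (i : ℕ) :
    has K (Function.update c s(x0, y0) γ) v i ↔
      has (Kd K x0 y0) c v i ∨ (i = γ ∧ (v = x0 ∨ v = y0)) := by
  constructor
  · rintro ⟨w, hvw, hval⟩
    by_cases h : s(v, w) = s(x0, y0)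
    · right
      rw [h, Function.update_self] at hval
      exact ⟨hval.symm, BL1_mem h⟩
    · left
      rw [Function.update_of_ne h] at hval
      exact ⟨w, BL1_adj.2 ⟨hvw, h⟩, hval⟩
  · rintro (⟨w, hvw, hval⟩ | ⟨rfl, rfl | rfl⟩)
    · rw [BL1_adj] at hvw
      exact ⟨w, hvw.1, by rw [Function.update_of_ne hvw.2]; exact hval⟩
    · exact ⟨y0, hadj, by rw [Function.update_self]⟩
    · exact ⟨x0, hadj.symm, by rw [Sym2.eq_swap, Function.update_self]⟩

theorem BL1_nX_ne (hadj : K.Adj x0 y0) {i : ℕ} (hi : i ≠ γ) :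
    nX K (Function.update c s(x0, y0) γ) X i = nX (Kd K x0 y0) c X i := by
  unfold nX
  congr 1
  apply Finset.filter_congr
  intro x _
  rw [BL1_has hadj]
  constructor
  · rintro (h | h)
    · exact h
    · exact absurd h.1 hi
  · exact Or.inl

theorem BL1_nX_eq (hadj : K.Adj x0 y0) (hx0 : x0 ∈ X) (hy0 : y0 ∉ X)
    (hx : ¬ has (Kd K x0 y0) c x0 γ) :
    nX K (Function.update c s(x0, y0) γ) X γ = nX (Kd K x0 y0) c X γ + 1 := by
  unfold nX
  have h1 : (X.filter fun x => has K (Function.update c s(x0, y0) γ) x γ) =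
      insert x0 (X.filter fun x => has (Kd K x0 y0) c x γ) := by
    ext x
    rw [Finset.mem_filter, Finset.mem_insert, Finset.mem_filter, BL1_has hadj]
    constructor
    · rintro ⟨hxX, h | ⟨-, h | h⟩⟩
      · exact Or.inr ⟨hxX, h⟩
      · exact Or.inl h
      · exact absurd (h ▸ hxX) hy0
    · rintro (h | h)
      · subst h
        exact ⟨hx0, Or.inr ⟨rfl, Or.inl rfl⟩⟩
      · exact ⟨h.1, Or.inl h.2⟩
  rw [h1, Finset.card_insert_of_notMem]
  intro h
  exact hx (Finset.mem_filter.1 h).2

/-- parity of the number of elements with exactly one of two properties -/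
theorem BL1_xor {V : Type} (X S : Finset V) (P Q : V → Prop) :
    (X.filter fun x => x ∈ S ∧ ¬ (P x ↔ Q x)).card + 2 * (X.filter fun x => x ∈ S ∧ P x ∧ Q x).card =
      (X.filter fun x => x ∈ S ∧ P x).card + (X.filter fun x => x ∈ S ∧ Q x).card := by
  simp only [Finset.card_filter]
  rw [Finset.mul_sum, ← Finset.sum_add_distrib, ← Finset.sum_add_distrib]
  refine Finset.sum_congr rfl fun x _ => ?_
  by_cases hS : x ∈ S <;> by_cases hP : P x <;> by_cases hQ : Q x <;> simp [hS, hP, hQ]

/-- exchange of two properties on `S` -/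
theorem BL1_swap {V : Type} (X S : Finset V) (P Q R : V → Prop)
    (h1 : ∀ x ∈ S, (R x ↔ Q x)) (h2 : ∀ x, x ∉ S → (R x ↔ P x)) :
    (X.filter fun x => R x).card + (X.filter fun x => x ∈ S ∧ P x).card =
      (X.filter fun x => P x).card + (X.filter fun x => x ∈ S ∧ Q x).card := by
  simp only [Finset.card_filter]
  rw [← Finset.sum_add_distrib, ← Finset.sum_add_distrib]
  refine Finset.sum_congr rfl fun x _ => ?_
  by_cases hS : x ∈ S
  · have := h1 x hS
    by_cases hP : P x <;> by_cases hQ : Q x <;> simp [hS, hP, hQ, this]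
  · have := h2 x hS
    by_cases hP : P x <;> by_cases hQ : Q x <;> simp [hS, hP, this]

end

theorem BL1 (hKSW : KSW_stmt) : BL1_stmt := by
  intro V _ K X D p x0 y0 r B c α hB hG hc
  have hadj := hB.adj
  constructor
  · by_contra hy
    apply hG
    refine ⟨Function.update c s(x0, y0) α, BL1_pec hc.pec hc.lt hc.mis hy, ?_⟩
    intro i hi
    by_cases hia : i = α
    · subst hia
      rw [BL1_nX_eq hadj hB.x0X hB.y0Y hc.mis]
      have := hc.bad
      omega
    · rw [BL1_nX_ne hadj hia]
      exact hc.par i hi hia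
  · intro γ hγ hγα hx hy
    have hpec := BL1_pec hc.pec hγ hx hy
    refine ⟨hpec, ?_, ?_⟩
    · intro v hv1 hv2 i
      rw [BL1_has hadj]
      constructor
      · rintro (h | ⟨-, h | h⟩)
        · exact h
        · exact absurd h hv1
        · exact absurd h hv2
      · exact Or.inl
    · intro S hS
      by_contra hodd
      apply hG
      obtain ⟨k1, k2, k3, k4⟩ := hKSW V K D (Function.update c s(x0, y0) γ) α γ S hpec hc.lt hγ hS
      refine ⟨ksw (Function.update c s(x0, y0) γ) α γ S, k1, ?_⟩
      have hα1 : nX K (Function.update c s(x0, y0) γ) X α = nX (Kd K x0 y0) c X α :=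
        BL1_nX_ne hadj (Ne.symm hγα)
      have hγ1 := BL1_nX_eq (X := X) (c := c) (γ := γ) hadj hB.x0X hB.y0Y hx
      have hbad := hc.bad
      have hpar := hc.par γ hγ hγα
      rw [Nat.not_even_iff_odd, Nat.odd_iff] at hodd
      intro i hi
      by_cases hia : i = α
      · subst hia
        have e1 := BL1_xor X S (fun x => has K (Function.update c s(x0, y0) γ) x i)
          (fun x => has K (Function.update c s(x0, y0) γ) x γ)
        have e2 := BL1_swap X S (fun x => has K (Function.update c s(x0, y0) γ) x i)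
          (fun x => has K (Function.update c s(x0, y0) γ) x γ)
          (fun x => has K (ksw (Function.update c s(x0, y0) γ) i γ S) x i)
          (fun x hx => (k2 x hx).1) (fun x hx => k3 x hx i)
        unfold nX at hα1 hbad ⊢
        omega
      · by_cases hig : i = γ
        · subst hig
          have e1 := BL1_xor X S (fun x => has K (Function.update c s(x0, y0) i) x α)
            (fun x => has K (Function.update c s(x0, y0) i) x i)
          have e2 := BL1_swap X S (fun x => has K (Function.update c s(x0, y0) i) x i)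
            (fun x => has K (Function.update c s(x0, y0) i) x α)
            (fun x => has K (ksw (Function.update c s(x0, y0) i) α i S) x i)
            (fun x hx => (k2 x hx).2) (fun x hx => k3 x hx i)
          unfold nX at hγ1 hpar ⊢
          omega
        · have e1 : nX K (ksw (Function.update c s(x0, y0) γ) α γ S) X i =
              nX K (Function.update c s(x0, y0) γ) X i := by
            unfold nX
            congr 1
            exact Finset.filter_congr fun x _ => k4 x i hia hig
          rw [e1, BL1_nX_ne hadj hig]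
          exact hc.par i hi hia

end

end Pool.Agent.OF
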