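import Pool.Agent.helper86.OF.SpecM

/-!
# Edge colouring of dense critical graphs: CMP (the middle phase)
-/

open scoped BigOperators

namespace Pool.Agent.OF

noncomputable section

open Classical

/-- Sequences by recursion. -/
lemma CMP_seq {α : Type} (a0 : α) (P : ℕ → (ℕ → α) → α → Prop) (q : ℕ)
    (hloc : ∀ i s s' a, (∀ j < i, s j = s' j) → P i s a → P i s' a)
    (hstep : ∀ i < q, ∀ s, (∀ j < i, P j s (s j)) → ∃ a, P i s a) :
    ∃ s : ℕ → α, ∀ i < q, P i s (s i) := by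
  have : ∀ n ≤ q, ∃ s : ℕ → α, ∀ i < n, P i s (s i) := by
    intro n
    induction n with
    | zero => intro _; exact ⟨fun _ => a0, fun i hi => absurd hi (Nat.not_lt_zero _)⟩
    | succ n ih =>
      intro hn
      obtain ⟨s, hs⟩ := ih (by omega)
      obtain ⟨a, ha⟩ := hstep n (by omega) s hs
      refine ⟨Function.update s n a, fun i hi => ?_⟩
      rcases Nat.lt_succ_iff_lt_or_eq.1 hi with h | h
      · rw [Function.update_of_ne (by omega)]
        exact hloc i s _ _ (fun j hj => by rw [Function.update_of_ne (by omega)]) (hs i h)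
      · subst h
        rw [Function.update_self]
        exact hloc i s _ _ (fun j hj => by rw [Function.update_of_ne (by omega)]) ha
  exact this q le_rfl

/-- The matching of one colour before the changes. -/
def CMP_m {V : Type} (X Hi : Finset V) (p e : V → V) (v : V) : V :=
  if e v ≠ v then e v else if v ∈ X \ Hi ∧ p v ∈ X \ Hi ∧ e (p v) = p v then p v else v

section basic

variable {V : Type} {X Hi : Finset V} {p e : V → V}

lemma CMP_m1 {v : V} (h : e v ≠ v) : CMP_m X Hi p e v = e v := by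
  unfold CMP_m; rw [if_pos h]

lemma CMP_m2 {v : V} (h : e v = v) (h2 : v ∈ X \ Hi ∧ p v ∈ X \ Hi ∧ e (p v) = p v) :
    CMP_m X Hi p e v = p v := by
  unfold CMP_m; rw [if_neg (by simpa using h), if_pos h2]

lemma CMP_m3 {v : V} (h : e v = v) (h2 : ¬ (v ∈ X \ Hi ∧ p v ∈ X \ Hi ∧ e (p v) = p v)) :
    CMP_m X Hi p e v = v := by
  unfold CMP_m; rw [if_neg (by simpa using h), if_neg h2]

lemma CMP_inv (hp : ∀ v, p (p v) = v) (he : ∀ v, e (e v) = v) (v : V) :
    CMP_m X Hi p e (CMP_m X Hi p e v) = v := by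
  by_cases h : e v = v
  · by_cases h2 : v ∈ X \ Hi ∧ p v ∈ X \ Hi ∧ e (p v) = p v
    · rw [CMP_m2 h h2, CMP_m2 h2.2.2 ⟨h2.2.1, by rw [hp]; exact h2.1, by rw [hp]; exact h⟩, hp]
    · rw [CMP_m3 h h2, CMP_m3 h h2]
  · rw [CMP_m1 h, CMP_m1 (by rw [he]; exact fun h' => h h'.symm), he]

lemma CMP_edge {v : V} (h : CMP_m X Hi p e v ≠ v) :
    (e v ≠ v ∧ CMP_m X Hi p e v = e v) ∨
    (e v = v ∧ CMP_m X Hi p e v = p v ∧ v ∈ X \ Hi ∧ p v ∈ X \ Hi ∧ e (p v) = p v) := by
  by_cases h1 : e v = v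
  · by_cases h2 : v ∈ X \ Hi ∧ p v ∈ X \ Hi ∧ e (p v) = p v
    · exact Or.inr ⟨h1, CMP_m2 h1 h2, h2⟩
    · exact absurd (CMP_m3 h1 h2) h
  · exact Or.inl ⟨h1, CMP_m1 h1⟩

lemma CMP_unc {v : V} (hv : v ∈ X \ Hi) (h : CMP_m X Hi p e v = v) :
    p v = v ∨ p v ∉ X \ Hi ∨ e (p v) ≠ p v := by
  by_contra hc
  push Not at hc
  by_cases h1 : e v = v
  · rw [CMP_m2 h1 ⟨hv, hc.2⟩] at h
    exact hc.1 h
  · rw [CMP_m1 h1] at h
    exact h1 h

lemma CMP_eqn {A : Finset V} (hp : ∀ v, p (p v) = v) (he : ∀ v, e (e v) = v)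
    (hpc : ∀ v, p v ≠ v → ¬ (v ∈ A ↔ p v ∈ A))
    (heq : ((X ∩ A).filter fun x => x ∉ Hi ∧ e x = x).card =
        ((X \ A).filter fun x => x ∉ Hi ∧ e x = x).card) :
    (((X \ Hi) ∩ A).filter fun v => CMP_m X Hi p e v = v).card =
      (((X \ Hi) \ A).filter fun v => CMP_m X Hi p e v = v).card := by
  set m := CMP_m X Hi p e with hm
  have hbij : ((((X ∩ A).filter fun x => x ∉ Hi ∧ e x = x)).filter fun v => ¬ m v = v).card =
      ((((X \ A).filter fun x => x ∉ Hi ∧ e x = x)).filter fun v => ¬ m v = v).card := by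
    apply Finset.card_nbij' m m
    · intro v hv
      simp only [Finset.coe_filter, Finset.mem_filter, Finset.mem_inter, Finset.mem_sdiff,
        Set.mem_ofPred_eq] at hv ⊢
      obtain ⟨⟨⟨h1, h2⟩, h3, h4⟩, h5⟩ := hv
      rcases CMP_edge h5 with h | h
      · exact absurd h4 h.1
      obtain ⟨-, h6, h7, h8, h9⟩ := h
      rw [← hm] at h6
      have h10 : m (m v) = v := CMP_inv hp he v
      rw [h6] at h5 h10 ⊢
      have h11 := hpc v h5
      rw [Finset.mem_sdiff] at h8
      refine ⟨⟨⟨h8.1, fun h => h11 ⟨fun _ => h, fun _ => h2⟩⟩, h8.2, h9⟩, ?_⟩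
      rw [h10]
      exact fun h => h5 h.symm
    · intro v hv
      simp only [Finset.coe_filter, Finset.mem_filter, Finset.mem_inter, Finset.mem_sdiff,
        Set.mem_ofPred_eq] at hv ⊢
      obtain ⟨⟨⟨h1, h2⟩, h3, h4⟩, h5⟩ := hv
      rcases CMP_edge h5 with h | h
      · exact absurd h4 h.1
      obtain ⟨-, h6, h7, h8, h9⟩ := h
      rw [← hm] at h6
      have h10 : m (m v) = v := CMP_inv hp he v
      rw [h6] at h5 h10 ⊢
      have h11 := hpc v h5
      rw [Finset.mem_sdiff] at h8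
      refine ⟨⟨⟨h8.1, ?_⟩, h8.2, h9⟩, ?_⟩
      · by_contra h
        exact h11 ⟨fun h' => absurd h' h2, fun h' => absurd h' h⟩
      rw [h10]
      exact fun h => h5 h.symm
    · intro v _
      exact CMP_inv hp he v
    · intro v _
      exact CMP_inv hp he v
  have e1 := Finset.card_filter_add_card_filter_not
    (s := (X ∩ A).filter fun x => x ∉ Hi ∧ e x = x) (fun v => m v = v)
  have e2 := Finset.card_filter_add_card_filter_not
    (s := (X \ A).filter fun x => x ∉ Hi ∧ e x = x) (fun v => m v = v)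
  have f1 : (((X ∩ A).filter fun x => x ∉ Hi ∧ e x = x).filter fun v => m v = v) =
      (((X \ Hi) ∩ A).filter fun v => m v = v) := by
    ext v
    simp only [Finset.mem_filter, Finset.mem_inter, Finset.mem_sdiff]
    constructor
    · rintro ⟨⟨⟨h1, h2⟩, h3, h4⟩, h5⟩
      exact ⟨⟨⟨h1, h3⟩, h2⟩, h5⟩
    · rintro ⟨⟨⟨h1, h3⟩, h2⟩, h5⟩
      refine ⟨⟨⟨h1, h2⟩, h3, ?_⟩, h5⟩
      by_contra h
      rw [hm, CMP_m1 h] at h5
      exact h h5
  have f2 : (((X \ A).filter fun x => x ∉ Hi ∧ e x = x).filter fun v => m v = v) =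
      (((X \ Hi) \ A).filter fun v => m v = v) := by
    ext v
    simp only [Finset.mem_filter, Finset.mem_sdiff]
    constructor
    · rintro ⟨⟨⟨h1, h2⟩, h3, h4⟩, h5⟩
      exact ⟨⟨⟨h1, h3⟩, h2⟩, h5⟩
    · rintro ⟨⟨⟨h1, h3⟩, h2⟩, h5⟩
      refine ⟨⟨⟨h1, h2⟩, h3, ?_⟩, h5⟩
      by_contra h
      rw [hm, CMP_m1 h] at h5
      exact h h5
  rw [f1] at e1
  rw [f2] at e2
  omega

end basic

/-- The data of the middle phase. -/
structure CMP_data {V : Type} [Fintype V] (W C R : SimpleGraph V) (A X : Finset V) (q U : ℕ)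
    (H : ℕ → Finset V) (E p : ℕ → V → V) (ε ζ κ η : ℝ) : Prop where
  wX : ∀ v w, W.Adj v w → v ∈ X ∧ w ∈ X ∧ (v ∈ A ↔ w ∈ A)
  cX : ∀ v w, C.Adj v w → v ∈ X ∧ w ∈ X ∧ ¬ (v ∈ A ↔ w ∈ A)
  RC : R ≤ C
  qN : q ≤ Fintype.card V
  hU : ∀ i < q, (H i).card ≤ U
  pm : ∀ i < q, MatIn (C \ R) (p i)
  pd : ∀ i < q, ∀ j < q, i ≠ j → ∀ v, p i v ≠ v → p i v ≠ p j v
  em : ∀ i < q, MatIn W (E i)
  ew : ∀ v w, W.Adj v w → ∃ i < q, E i v = w
  ed : ∀ i < q, ∀ j < q, i ≠ j → ∀ v, E i v ≠ v → E i v ≠ E j v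
  eH : ∀ i < q, ∀ x ∈ H i, E i x = x
  ec : ∀ i < q, ((Finset.univ.filter fun v => E i v ≠ v).card : ℝ) ≤ η * Fintype.card V
  eb : ∀ i < q, ((X ∩ A).filter fun x => x ∉ H i ∧ E i x = x).card =
        ((X \ A).filter fun x => x ∉ H i ∧ E i x = x).card
  h1 : ∀ i < q, ((X.filter fun x => p i x = x).card : ℝ) ≤ η * Fintype.card V
  t1 : ∀ x ∈ X, (((Finset.range q).filter fun i => p i x = x).card : ℝ) ≤ η * Fintype.card V
  t2 : ∀ x, (((Finset.range q).filter fun i => p i x ∈ H i ∧ p i x ≠ x).card : ℝ) ≤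
    η * Fintype.card V
  t3 : ∀ x, (((Finset.range q).filter fun i => E i (p i x) ≠ p i x).card : ℝ) ≤
    η * Fintype.card V
  dR : ∀ x ∈ X, ζ / 2 * Fintype.card V ≤ dg R x
  ex1 : Expd R (X ∩ A) (X \ A) (ζ / 8) (ε / 4) κ
  ex2 : Expd R (X \ A) (X ∩ A) (ζ / 8) (ε / 4) κ
  siz : |((X ∩ A).card : ℝ) - (X \ A).card| ≤ U

/-- The reserve graph of the colour `i`. -/
def CMP_R {V : Type} (R : SimpleGraph V) (X : Finset V) (H : ℕ → Finset V)
    (s : ℕ → (V → V) × Finset V) (i : ℕ) : SimpleGraph V where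
  Adj v w := R.Adj v w ∧ v ∈ X \ H i ∧ w ∈ X \ H i ∧ ∀ j < i, (s j).1 v ≠ w ∧ (s j).1 w ≠ v
  symm := ⟨fun v w h => ⟨h.1.symm, h.2.2.1, h.2.1, fun j hj =>
    ⟨(h.2.2.2 j hj).2, (h.2.2.2 j hj).1⟩⟩⟩
  loopless := ⟨fun v h => R.loopless.irrefl v h.1⟩

/-- The number of times `v` was touched. -/
def CMP_tc {V : Type} (s : ℕ → (V → V) × Finset V) (i : ℕ) (v : V) : ℕ :=
  ((Finset.range i).filter fun j => v ∈ (s j).2).card

/-- One step. -/
structure CMP_step {V : Type} [Fintype V] (R : SimpleGraph V) (X : Finset V)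
    (H : ℕ → Finset V) (E p : ℕ → V → V) (ζ : ℝ) (i : ℕ) (s : ℕ → (V → V) × Finset V)
    (a : (V → V) × Finset V) : Prop where
  chg : Chg (CMP_R R X H s i) (CMP_m X (H i) (p i) (E i)) a.1 a.2
  cov : ∀ v ∈ X \ H i, a.1 v ≠ v
  crd : a.2.card ≤ 4 * ((X \ H i).filter fun v => CMP_m X (H i) (p i) (E i) v = v).card
  tch : ∀ v ∈ a.2, (v ∈ X \ H i ∧ CMP_m X (H i) (p i) (E i) v = v) ∨
    (CMP_tc s i v : ℝ) < ζ / 16 * Fintype.card V
  ee : ∀ v, E i v ≠ v → v ∉ a.2

lemma CMP_loc {V : Type} [Fintype V] (R : SimpleGraph V) (X : Finset V)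
    (H : ℕ → Finset V) (E p : ℕ → V → V) (ζ : ℝ) (i : ℕ) (s s' : ℕ → (V → V) × Finset V)
    (a : (V → V) × Finset V) (hs : ∀ j < i, s j = s' j) (h : CMP_step R X H E p ζ i s a) :
    CMP_step R X H E p ζ i s' a := by
  have h1 : CMP_R R X H s i = CMP_R R X H s' i := by
    ext v w
    constructor
    · rintro ⟨a1, a2, a3, a4⟩
      exact ⟨a1, a2, a3, fun j hj => by rw [← hs j hj]; exact a4 j hj⟩
    · rintro ⟨a1, a2, a3, a4⟩
      exact ⟨a1, a2, a3, fun j hj => by rw [hs j hj]; exact a4 j hj⟩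
  have h2 : ∀ v, CMP_tc s i v = CMP_tc s' i v := by
    intro v
    unfold CMP_tc
    congr 1
    apply Finset.filter_congr
    intro j hj
    rw [hs j (Finset.mem_range.1 hj)]
  refine ⟨?_, h.cov, h.crd, ?_, h.ee⟩
  · rw [← h1]; exact h.chg
  · intro v hv
    rw [← h2]
    exact h.tch v hv

section step

variable {V : Type} [Fintype V] {W C R : SimpleGraph V} {A X : Finset V} {q U : ℕ}
    {H : ℕ → Finset V} {E p : ℕ → V → V} {ε ζ κ η : ℝ}
    (hd : CMP_data W C R A X q U H E p ε ζ κ η)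

include hd

/-- Used edges of `R` are in the touched sets. -/
lemma CMP_used {j : ℕ} (hj : j < q) {s : ℕ → (V → V) × Finset V}
    (hs : CMP_step R X H E p ζ j s (s j)) {v w : V} (hvw : R.Adj v w) (h : (s j).1 v = w) :
    v ∈ (s j).2 := by
  by_contra hv
  have h1 := hs.chg.off v hv
  rw [h] at h1
  have hne : CMP_m X (H j) (p j) (E j) v ≠ v := by rw [← h1]; exact hvw.ne'
  have hC := hd.RC hvw
  rcases CMP_edge hne with h2 | h2
  · have h3 := (hd.em j hj).2 v h2.1
    rw [← h2.2, ← h1] at h3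
    exact (hd.cX v w hC).2.2 (hd.wX v w h3).2.2
  · have h3 : p j v ≠ v := by rw [← h2.2.1]; exact hne
    have h4 := (hd.pm j hj).2 v h3
    rw [← h2.2.1, ← h1, SimpleGraph.sdiff_adj] at h4
    exact h4.2 hvw

lemma CMP_used2 {i : ℕ} (hi : i ≤ q) {s : ℕ → (V → V) × Finset V}
    (hs : ∀ j < i, CMP_step R X H E p ζ j s (s j)) {v w : V} (hvw : R.Adj v w)
    (hv : v ∈ X \ H i) (hw : w ∈ X \ H i) (hn : ¬ (CMP_R R X H s i).Adj v w) :
    ∃ j < i, v ∈ (s j).2 ∧ (s j).1 v = w := by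
  have h1 : ∃ j < i, (s j).1 v = w ∨ (s j).1 w = v := by
    by_contra hc
    push Not at hc
    exact hn ⟨hvw, hv, hw, hc⟩
  obtain ⟨j, hj, h2⟩ := h1
  have h3 : (s j).1 v = w := by
    rcases h2 with h2 | h2
    · exact h2
    · rw [← h2]; exact (hs j hj).chg.inv w
  exact ⟨j, hj, CMP_used hd (lt_of_lt_of_le hj hi) (hs j hj) hvw h3, h3⟩

lemma CMP_cnt {i : ℕ} (hi : i ≤ q) {s : ℕ → (V → V) × Finset V}
    (hs : ∀ j < i, CMP_step R X H E p ζ j s (s j)) {v : V} (hv : v ∈ X \ H i) (T : Finset V)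
    (hT : T ⊆ X \ H i) :
    (T.filter fun w => R.Adj v w).card ≤
      (T.filter fun w => (CMP_R R X H s i).Adj v w).card + CMP_tc s i v := by
  have hsub : (T.filter fun w => R.Adj v w) ⊆ (T.filter fun w => (CMP_R R X H s i).Adj v w) ∪
      ((Finset.range i).filter fun j => v ∈ (s j).2).image (fun j => (s j).1 v) := by
    intro w hw
    rw [Finset.mem_filter] at hw
    rw [Finset.mem_union, Finset.mem_filter, Finset.mem_image]
    by_cases h : (CMP_R R X H s i).Adj v w
    · exact Or.inl ⟨hw.1, h⟩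
    · obtain ⟨j, hj, h1, h2⟩ := CMP_used2 hd hi hs hw.2 hv (hT hw.1) h
      exact Or.inr ⟨j, Finset.mem_filter.2 ⟨Finset.mem_range.2 hj, h1⟩, h2⟩
  refine (Finset.card_le_card hsub).trans ((Finset.card_union_le _ _).trans ?_)
  unfold CMP_tc
  exact Nat.add_le_add_left Finset.card_image_le _

/-- The uncovered vertices. -/
lemma CMP_uncard {i : ℕ} (hi : i < q) :
    (((X \ H i).filter fun v => CMP_m X (H i) (p i) (E i) v = v).card : ℝ) ≤
      2 * η * Fintype.card V + U := by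
  have hsub : ((X \ H i).filter fun v => CMP_m X (H i) (p i) (E i) v = v) ⊆
      (X.filter fun x => p i x = x) ∪ ((H i).image (p i) ∪
        (Finset.univ.filter fun v => E i v ≠ v).image (p i)) := by
    intro v hv
    rw [Finset.mem_filter] at hv
    rw [Finset.mem_union, Finset.mem_union, Finset.mem_filter, Finset.mem_image,
      Finset.mem_image]
    have hX := (Finset.mem_sdiff.1 hv.1).1
    have hpp := (hd.pm i hi).1 v
    by_cases h0 : p i v = v
    · exact Or.inl ⟨hX, h0⟩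
    rcases CMP_unc hv.1 hv.2 with h | h | h
    · exact Or.inl ⟨hX, h⟩
    · right; left
      refine ⟨p i v, ?_, hpp⟩
      have h2 := (hd.pm i hi).2 v h0
      have h3 := (hd.cX _ _ ((SimpleGraph.sdiff_adj _ _ _ _).1 h2).1).2.1
      rw [Finset.mem_sdiff] at h
      push Not at h
      exact h h3
    · right; right
      exact ⟨p i v, Finset.mem_filter.2 ⟨Finset.mem_univ _, h⟩, hpp⟩
  have h1 := Finset.card_le_card hsub
  have h2 := Finset.card_union_le (X.filter fun x => p i x = x) ((H i).image (p i) ∪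
        (Finset.univ.filter fun v => E i v ≠ v).image (p i))
  have h3 := Finset.card_union_le ((H i).image (p i))
        ((Finset.univ.filter fun v => E i v ≠ v).image (p i))
  have h4 : ((H i).image (p i)).card ≤ U := Finset.card_image_le.trans (hd.hU i hi)
  have h5 : ((Finset.univ.filter fun v => E i v ≠ v).image (p i)).card ≤
    (Finset.univ.filter fun v => E i v ≠ v).card := Finset.card_image_le
  have h6 := hd.ec i hi
  have h7 := hd.h1 i hi
  have h8 : (((X \ H i).filter fun v => CMP_m X (H i) (p i) (E i) v = v).card : ℝ) ≤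
      (X.filter fun x => p i x = x).card + (U + (Finset.univ.filter fun v => E i v ≠ v).card) := by
    have : ((X \ H i).filter fun v => CMP_m X (H i) (p i) (E i) v = v).card ≤
      (X.filter fun x => p i x = x).card + (U + (Finset.univ.filter fun v => E i v ≠ v).card) := by
      omega
    exact_mod_cast this
  linarith

/-- The touch count. -/
lemma CMP_touch (hη : 0 ≤ η) (hζ : 0 ≤ ζ) {i : ℕ} (hi : i ≤ q) {s : ℕ → (V → V) × Finset V}
    (hs : ∀ j < i, CMP_step R X H E p ζ j s (s j)) (v : V) :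
    (CMP_tc s i v : ℝ) ≤ 3 * η * Fintype.card V + ζ / 16 * Fintype.card V + 1 := by
  have hN : (0 : ℝ) ≤ Fintype.card V := Nat.cast_nonneg _
  set F1 := (Finset.range i).filter fun j => v ∈ X \ H j ∧ CMP_m X (H j) (p j) (E j) v = v
    with hF1
  set F2 := (Finset.range i).filter fun j => v ∈ (s j).2 ∧
    (CMP_tc s j v : ℝ) < ζ / 16 * Fintype.card V with hF2
  have hsub : ((Finset.range i).filter fun j => v ∈ (s j).2) ⊆ F1 ∪ F2 := by
    intro j hj
    rw [Finset.mem_filter, Finset.mem_range] at hj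
    rw [Finset.mem_union, hF1, hF2, Finset.mem_filter, Finset.mem_filter, Finset.mem_range]
    rcases (hs j hj.1).tch v hj.2 with h | h
    · exact Or.inl ⟨hj.1, h⟩
    · exact Or.inr ⟨hj.1, hj.2, h⟩
  have h2 : (F2.card : ℝ) ≤ ζ / 16 * Fintype.card V + 1 := by
    rcases F2.eq_empty_or_nonempty with h | h
    · rw [h, Finset.card_empty, Nat.cast_zero]
      positivity
    · have hm := F2.max'_mem h
      set j := F2.max' h with hjdef
      have hj2 := hm
      rw [hF2, Finset.mem_filter, Finset.mem_range] at hj2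
      have hsub2 : F2 ⊆ insert j ((Finset.range j).filter fun l => v ∈ (s l).2) := by
        intro l hl
        rw [Finset.mem_insert]
        have hle := F2.le_max' l hl
        rcases hle.lt_or_eq with h5 | h5
        · right
          rw [Finset.mem_filter, Finset.mem_range]
          refine ⟨h5, ?_⟩
          rw [hF2, Finset.mem_filter] at hl
          exact hl.2.1
        · left; exact h5
      have h6 := (Finset.card_le_card hsub2).trans (Finset.card_insert_le _ _)
      have h7 : (F2.card : ℝ) ≤ CMP_tc s j v + 1 := by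
        unfold CMP_tc
        exact_mod_cast h6
      linarith [hj2.2.2]
  have h1 : (F1.card : ℝ) ≤ 3 * η * Fintype.card V := by
    by_cases hX : v ∈ X
    · have hsub3 : F1 ⊆ ((Finset.range q).filter fun i => p i v = v) ∪
          (((Finset.range q).filter fun i => p i v ∈ H i ∧ p i v ≠ v) ∪
          ((Finset.range q).filter fun i => E i (p i v) ≠ p i v)) := by
        intro j hj
        rw [hF1, Finset.mem_filter, Finset.mem_range] at hj
        have hjq : j < q := lt_of_lt_of_le hj.1 hi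
        rw [Finset.mem_union, Finset.mem_union, Finset.mem_filter, Finset.mem_filter,
          Finset.mem_filter, Finset.mem_range]
        by_cases h0 : p j v = v
        · exact Or.inl ⟨hjq, h0⟩
        rcases CMP_unc hj.2.1 hj.2.2 with h | h | h
        · exact Or.inl ⟨hjq, h⟩
        · right; left
          have h2 := (hd.pm j hjq).2 v h0
          have h3 := (hd.cX _ _ ((SimpleGraph.sdiff_adj _ _ _ _).1 h2).1).2.1
          rw [Finset.mem_sdiff] at h
          push Not at h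
          exact ⟨hjq, h h3, h0⟩
        · right; right
          exact ⟨hjq, h⟩
      have a1 := (Finset.card_le_card hsub3).trans ((Finset.card_union_le _ _).trans
        (Nat.add_le_add_left (Finset.card_union_le _ _) _))
      have a2 := hd.t1 v hX
      have a3 := hd.t2 v
      have a4 := hd.t3 v
      have a5 : (F1.card : ℝ) ≤ (((Finset.range q).filter fun i => p i v = v).card : ℝ) +
          ((((Finset.range q).filter fun i => p i v ∈ H i ∧ p i v ≠ v).card : ℝ) +
          (((Finset.range q).filter fun i => E i (p i v) ≠ p i v).card : ℝ)) := by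
        exact_mod_cast a1
      linarith
    · have : F1 = ∅ := by
        rw [Finset.eq_empty_iff_forall_notMem]
        intro j hj
        rw [hF1, Finset.mem_filter, Finset.mem_sdiff] at hj
        exact hX hj.2.1.1
      rw [this, Finset.card_empty, Nat.cast_zero]
      positivity
  have h3 := (Finset.card_le_card hsub).trans (Finset.card_union_le _ _)
  have h4 : (CMP_tc s i v : ℝ) ≤ F1.card + F2.card := by
    unfold CMP_tc
    exact_mod_cast h3
  linarith

/-- The total number of touched vertices. -/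
lemma CMP_total (hη : 0 ≤ η) {i : ℕ} (hi : i ≤ q) {s : ℕ → (V → V) × Finset V}
    (hs : ∀ j < i, CMP_step R X H E p ζ j s (s j)) :
    ((∑ v, CMP_tc s i v : ℕ) : ℝ) ≤
      Fintype.card V * (4 * (2 * η * Fintype.card V + U)) := by
  have hN : (0 : ℝ) ≤ Fintype.card V := Nat.cast_nonneg _
  have e1 : ∑ v, CMP_tc s i v = ∑ j ∈ Finset.range i, (s j).2.card := by
    unfold CMP_tc
    simp_rw [Finset.card_filter]
    rw [Finset.sum_comm]
    apply Finset.sum_congr rfl
    intro j _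
    rw [← Finset.card_filter, Finset.filter_mem_eq_inter, Finset.univ_inter]
  rw [e1]
  push_cast
  have h1 : ∀ j ∈ Finset.range i, ((s j).2.card : ℝ) ≤ 4 * (2 * η * Fintype.card V + U) := by
    intro j hj
    rw [Finset.mem_range] at hj
    have h2 := (hs j hj).crd
    have h3 := CMP_uncard hd (lt_of_lt_of_le hj hi)
    have h4 : ((s j).2.card : ℝ) ≤
        4 * ((X \ H j).filter fun v => CMP_m X (H j) (p j) (E j) v = v).card := by
      exact_mod_cast h2
    linarith
  refine (Finset.sum_le_sum h1).trans ?_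
  rw [Finset.sum_const, Finset.card_range, nsmul_eq_mul]
  apply mul_le_mul_of_nonneg_right
  · exact_mod_cast hi.trans hd.qN
  · positivity

/-- Expansion of the reserve graph. -/
lemma CMP_exp (hη : 0 ≤ η) {i : ℕ} (hi : i ≤ q) {s : ℕ → (V → V) × Finset V}
    (hs : ∀ j < i, CMP_step R X H E p ζ j s (s j)) (P Q P' Q' : Finset V)
    (hex : Expd R P Q (ζ / 8) (ε / 4) κ) (hP : P' ⊆ P) (hQ : Q' ⊆ Q) (hP' : P' ⊆ X \ H i)
    (hQ' : Q' ⊆ X \ H i) (hcard : Q.card ≤ Q'.card + U)
    (n5 : 8 * (2 * η * Fintype.card V + U) ≤ κ * Fintype.card V)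
    (n6 : 4 * (U : ℝ) ≤ ε * Fintype.card V) :
    Expd (CMP_R R X H s i) P' Q' (ζ / 4 / 2) (ε / 8) (κ / 2) := by
  intro S T hS hT hSc hTc
  have hN : (0 : ℝ) ≤ Fintype.card V := Nat.cast_nonneg _
  have hcard' : (Q.card : ℝ) ≤ Q'.card + U := by exact_mod_cast hcard
  have h1 := hex S T (hS.trans hP) (hT.trans hQ) (by linarith) (by linarith)
  have h2 : ep R S T ≤ ep (CMP_R R X H s i) S T + ∑ v, CMP_tc s i v := by
    unfold ep
    have h3 : ∑ v ∈ S, dgs R T v ≤ ∑ v ∈ S, (dgs (CMP_R R X H s i) T v + CMP_tc s i v) := by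
      apply Finset.sum_le_sum
      intro v hv
      unfold dgs
      exact CMP_cnt hd hi hs (hP' (hS hv)) T (hT.trans hQ')
    refine h3.trans ?_
    rw [Finset.sum_add_distrib]
    apply Nat.add_le_add_left
    exact Finset.sum_le_sum_of_subset (Finset.subset_univ _)
  have h4 : (ep R S T : ℝ) ≤ ep (CMP_R R X H s i) S T + ((∑ v, CMP_tc s i v : ℕ) : ℝ) := by
    exact_mod_cast h2
  have h5 := CMP_total hd hη hi hs
  have h6 : (Fintype.card V : ℝ) * (8 * (2 * η * Fintype.card V + U)) ≤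
      Fintype.card V * (κ * Fintype.card V) := mul_le_mul_of_nonneg_left n5 hN
  nlinarith

/-- The overloaded vertices. -/
lemma CMP_over (hη : 0 ≤ η) (hζ : 0 < ζ) (hN : (0 : ℝ) < Fintype.card V) {i : ℕ} (hi : i ≤ q)
    {s : ℕ → (V → V) × Finset V} (hs : ∀ j < i, CMP_step R X H E p ζ j s (s j)) {δ : ℝ}
    (n4 : 64 * (2 * η * Fintype.card V + U) ≤ ζ * δ * Fintype.card V) :
    ((Finset.univ.filter fun v => ζ / 16 * Fintype.card V ≤ (CMP_tc s i v : ℝ)).card : ℝ) ≤
      δ * Fintype.card V := by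
  set S := Finset.univ.filter fun v => ζ / 16 * Fintype.card V ≤ (CMP_tc s i v : ℝ) with hS
  have h1 : (S.card : ℝ) * (ζ / 16 * Fintype.card V) ≤ ((∑ v, CMP_tc s i v : ℕ) : ℝ) := by
    have h2 : ∑ v ∈ S, (ζ / 16 * Fintype.card V) ≤ ∑ v ∈ S, (CMP_tc s i v : ℝ) := by
      apply Finset.sum_le_sum
      intro v hv
      rw [hS, Finset.mem_filter] at hv
      exact hv.2
    rw [Finset.sum_const, nsmul_eq_mul] at h2
    refine h2.trans ?_
    push_cast
    apply Finset.sum_le_sum_of_subset_of_nonneg (Finset.subset_univ _)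
    intro v _ _
    exact Nat.cast_nonneg _
  have h5 := CMP_total hd hη hi hs
  have h6 : (S.card : ℝ) * (ζ / 16 * Fintype.card V) ≤
      (δ * Fintype.card V) * (ζ / 16 * Fintype.card V) := by
    have : (Fintype.card V : ℝ) * (64 * (2 * η * Fintype.card V + U)) ≤
      Fintype.card V * (ζ * δ * Fintype.card V) := mul_le_mul_of_nonneg_left n4 hN.le
    nlinarith
  exact le_of_mul_le_mul_right h6 (by positivity)

/-- The step. -/
lemma CMP_dostep (hη : 0 < η) (hζ : 0 < ζ) (hN : (0 : ℝ) < Fintype.card V) {δ : ℝ}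
    (hMPS : ∀ (A Z EE S : Finset V) (R : SimpleGraph V) (m : V → V),
      MCtx A Z EE S R m (ζ / 4) (ε / 8) (κ / 2) δ →
      ∃ (μ : V → V) (T : Finset V), Chg R m μ T ∧ (∀ v ∈ Z, μ v ≠ v) ∧
        T.card ≤ 4 * (Z.filter fun v => m v = v).card ∧ (∀ v ∈ T, (v ∈ Z ∧ m v = v) ∨ v ∉ S) ∧
        ∀ v ∈ EE, v ∉ T)
    (n1 : 2 * η * Fintype.card V + U ≤ δ * Fintype.card V)
    (n4 : 64 * (2 * η * Fintype.card V + U) ≤ ζ * min δ (ζ / 16) * Fintype.card V)
    (n5 : 8 * (2 * η * Fintype.card V + U) ≤ κ * Fintype.card V)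
    (n2 : 2 * (U : ℝ) ≤ δ * Fintype.card V)
    (n6 : 4 * (U : ℝ) ≤ ε * Fintype.card V)
    (n7 : (U : ℝ) + 1 + 3 * η * Fintype.card V ≤ ζ / 16 * Fintype.card V)
    {i : ℕ} (hi : i < q) {s : ℕ → (V → V) × Finset V}
    (hs : ∀ j < i, CMP_step R X H E p ζ j s (s j)) :
    ∃ a, CMP_step R X H E p ζ i s a := by
  have hover := CMP_over hd hη.le hζ hN hi.le hs n4
  set S := Finset.univ.filter fun v => ζ / 16 * Fintype.card V ≤ (CMP_tc s i v : ℝ) with hS
  have hSδ : (S.card : ℝ) ≤ δ * Fintype.card V :=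
    hover.trans (mul_le_mul_of_nonneg_right (min_le_left _ _) hN.le)
  have hSζ : (S.card : ℝ) ≤ ζ / 16 * Fintype.card V :=
    hover.trans (mul_le_mul_of_nonneg_right (min_le_right _ _) hN.le)
  have hηN : 0 < η * Fintype.card V := by positivity
  have hU0 : (0 : ℝ) ≤ U := Nat.cast_nonneg _
  have hun := CMP_uncard hd hi
  have hEZ : ∀ v, E i v ≠ v → v ∈ X \ H i := by
    intro v hv
    rw [Finset.mem_sdiff]
    exact ⟨(hd.wX _ _ ((hd.em i hi).2 v hv)).1, fun h => hv (hd.eH i hi v h)⟩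
  have hHc : ((H i).card : ℝ) ≤ U := by exact_mod_cast hd.hU i hi
  have cA : (X ∩ A).card ≤ ((X \ H i) ∩ A).card + U := by
    have h1 : (X ∩ A) ⊆ ((X \ H i) ∩ A) ∪ H i := by
      intro v hv
      rw [Finset.mem_inter] at hv
      rw [Finset.mem_union, Finset.mem_inter, Finset.mem_sdiff]
      by_cases h : v ∈ H i
      · exact Or.inr h
      · exact Or.inl ⟨⟨hv.1, h⟩, hv.2⟩
    have h2 := (Finset.card_le_card h1).trans (Finset.card_union_le _ _)
    have h3 := hd.hU i hi
    omega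
  have cB : (X \ A).card ≤ ((X \ H i) \ A).card + U := by
    have h1 : (X \ A) ⊆ ((X \ H i) \ A) ∪ H i := by
      intro v hv
      rw [Finset.mem_sdiff] at hv
      rw [Finset.mem_union, Finset.mem_sdiff, Finset.mem_sdiff]
      by_cases h : v ∈ H i
      · exact Or.inr h
      · exact Or.inl ⟨⟨hv.1, h⟩, hv.2⟩
    have h2 := (Finset.card_le_card h1).trans (Finset.card_union_le _ _)
    have h3 := hd.hU i hi
    omega
  have cA' : ((X \ H i) ∩ A).card ≤ (X ∩ A).card :=
    Finset.card_le_card (Finset.inter_subset_inter_right Finset.sdiff_subset)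
  have cB' : ((X \ H i) \ A).card ≤ (X \ A).card :=
    Finset.card_le_card (Finset.sdiff_subset_sdiff Finset.sdiff_subset subset_rfl)
  have hctx : MCtx A (X \ H i) (Finset.univ.filter fun v => E i v ≠ v) S (CMP_R R X H s i)
      (CMP_m X (H i) (p i) (E i)) (ζ / 4) (ε / 8) (κ / 2) δ := by
    refine ⟨CMP_inv (hd.pm i hi).1 (hd.em i hi).1, ?_, ?_, ?_, ?_, ?_, hSδ, ?_, ?_, ?_, ?_, ?_, ?_⟩
    · intro v hv
      apply CMP_m3
      · by_contra h
        exact hv (hEZ v h)
      · exact fun h => hv h.1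
    · intro v w h
      exact ⟨h.2.1, h.2.2.1, (hd.cX _ _ (hd.RC h.1)).2.2⟩
    · intro v hv
      rw [Finset.mem_filter] at hv
      have h1 : CMP_m X (H i) (p i) (E i) v = E i v := CMP_m1 hv.2
      rw [Finset.mem_filter, h1, (hd.em i hi).1]
      exact ⟨⟨Finset.mem_univ _, fun h => hv.2 h.symm⟩, hv.2⟩
    · intro v hv h1
      rw [Finset.mem_filter] at hv
      push Not at hv
      have hv' := hv (Finset.mem_univ _)
      rcases CMP_edge h1 with h | h
      · exact absurd hv' h.1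
      · have h3 : p i v ≠ v := by rw [← h.2.1]; exact h1
        have h2 := (hd.pm i hi).2 v h3
        rw [h.2.1]
        exact (hd.cX _ _ ((SimpleGraph.sdiff_adj _ _ _ _).1 h2).1).2.2
    · have := hd.ec i hi
      linarith
    · linarith
    · exact CMP_eqn (hd.pm i hi).1 (hd.em i hi).1 (fun v hv =>
        (hd.cX _ _ ((SimpleGraph.sdiff_adj _ _ _ _).1 ((hd.pm i hi).2 v hv)).1).2.2) (hd.eb i hi)
    · intro v hv
      have h1 := hd.dR v (Finset.mem_sdiff.1 hv).1
      have h2 := CMP_cnt hd hi.le hs hv (X \ H i) subset_rfl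
      have h3 := CMP_touch hd hη.le hζ.le hi.le hs v
      have hsub1 : (Finset.univ.filter fun w => R.Adj v w) ⊆
          ((X \ H i).filter fun w => R.Adj v w) ∪ H i := by
        intro w hw
        rw [Finset.mem_filter] at hw
        rw [Finset.mem_union, Finset.mem_filter, Finset.mem_sdiff]
        by_cases h : w ∈ H i
        · exact Or.inr h
        · exact Or.inl ⟨⟨(hd.cX _ _ (hd.RC hw.2)).2.1, h⟩, hw.2⟩
      have h4 := (Finset.card_le_card hsub1).trans (Finset.card_union_le _ _)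
      have hsub2 : ((X \ H i).filter fun w => (CMP_R R X H s i).Adj v w) ⊆
          (Finset.univ.filter fun b => b ∉ S ∧ (CMP_R R X H s i).Adj v b) ∪ S := by
        intro w hw
        rw [Finset.mem_filter] at hw
        rw [Finset.mem_union, Finset.mem_filter]
        by_cases h : w ∈ S
        · exact Or.inr h
        · exact Or.inl ⟨Finset.mem_univ _, h, hw.2⟩
      have h5 := (Finset.card_le_card hsub2).trans (Finset.card_union_le _ _)
      have h6 : dg R v = (Finset.univ.filter fun w => R.Adj v w).card := rfl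
      rw [h6] at h1
      have h7 : ((Finset.univ.filter fun w => R.Adj v w).card : ℝ) ≤
          ((Finset.univ.filter fun b => b ∉ S ∧ (CMP_R R X H s i).Adj v b).card : ℝ) + S.card +
          CMP_tc s i v + (H i).card := by
        have : (Finset.univ.filter fun w => R.Adj v w).card ≤
          (Finset.univ.filter fun b => b ∉ S ∧ (CMP_R R X H s i).Adj v b).card + S.card +
          CMP_tc s i v + (H i).card := by omega
        exact_mod_cast this
      nlinarith
    · exact CMP_exp hd hη.le hi.le hs (X ∩ A) (X \ A) _ _ hd.ex1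
        (Finset.inter_subset_inter_right Finset.sdiff_subset)
        (Finset.sdiff_subset_sdiff Finset.sdiff_subset subset_rfl) Finset.inter_subset_left
        Finset.sdiff_subset cB n5 n6
    · exact CMP_exp hd hη.le hi.le hs (X \ A) (X ∩ A) _ _ hd.ex2
        (Finset.sdiff_subset_sdiff Finset.sdiff_subset subset_rfl)
        (Finset.inter_subset_inter_right Finset.sdiff_subset) Finset.sdiff_subset
        Finset.inter_subset_left cA n5 n6
    · have h1 := abs_le.1 hd.siz
      have cA2 : ((X ∩ A).card : ℝ) ≤ ((X \ H i) ∩ A).card + U := by exact_mod_cast cA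
      have cB2 : ((X \ A).card : ℝ) ≤ ((X \ H i) \ A).card + U := by exact_mod_cast cB
      have cA3 : (((X \ H i) ∩ A).card : ℝ) ≤ (X ∩ A).card := by exact_mod_cast cA'
      have cB3 : (((X \ H i) \ A).card : ℝ) ≤ (X \ A).card := by exact_mod_cast cB'
      rw [abs_le]
      constructor
      · linarith [h1.1]
      · linarith [h1.2]
  obtain ⟨μ, T, a1, a2, a3, a4, a5⟩ := hMPS A (X \ H i) (Finset.univ.filter fun v => E i v ≠ v) S
    (CMP_R R X H s i) (CMP_m X (H i) (p i) (E i)) hctx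
  refine ⟨(μ, T), a1, a2, a3, ?_, ?_⟩
  · intro v hv
    rcases a4 v hv with h | h
    · exact Or.inl h
    · right
      rw [hS, Finset.mem_filter] at h
      push Not at h
      exact h (Finset.mem_univ _)
  · intro v hv
    exact a5 v (Finset.mem_filter.2 ⟨Finset.mem_univ _, hv⟩)

/-- The conclusion from the steps. -/
lemma CMP_final {s : ℕ → (V → V) × Finset V} (hs : ∀ j < q, CMP_step R X H E p ζ j s (s j)) :
    ∃ M : ℕ → V → V, (∀ i < q, MatIn (W ⊔ C) (M i)) ∧
      (∀ i < q, ∀ x ∈ X, (M i x = x ↔ x ∈ H i)) ∧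
      (∀ i < q, ∀ j < q, i ≠ j → ∀ v, M i v ≠ v → M i v ≠ M j v) ∧
      ∀ v w, W.Adj v w → ∃ i < q, M i v = w := by
  have hdis : ∀ i < q, ∀ j < i, ∀ v, (s i).1 v ≠ v → (s i).1 v ≠ (s j).1 v := by
    intro i hi j hji v hv hcon
    have hj : j < q := hji.trans hi
    rcases (hs i hi).chg.edg v hv with h1 | h1
    · exact (h1.2.2.2 j hji).1 hcon.symm
    have hv2 : (s j).1 v ≠ v := by rw [← hcon]; exact hv
    have hne1 : CMP_m X (H i) (p i) (E i) v ≠ v := by rw [← h1]; exact hv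
    rcases (hs j hj).chg.edg v hv2 with h2 | h2
    · -- an edge of R
      have hR := h2.1
      rw [← hcon] at hR
      have := CMP_used hd hi (hs i hi) hR rfl
      rcases CMP_edge hne1 with h3 | h3
      · exact (hs i hi).ee v h3.1 this
      · have h4 : p i v ≠ v := by rw [← h3.2.1]; exact hne1
        have h5 := (hd.pm i hi).2 v h4
        rw [← h3.2.1, ← h1, SimpleGraph.sdiff_adj] at h5
        exact h5.2 hR
    have hne2 : CMP_m X (H j) (p j) (E j) v ≠ v := by rw [← h2]; exact hv2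
    rcases CMP_edge hne1 with h3 | h3
    · rcases CMP_edge hne2 with h4 | h4
      · exact hd.ed i hi j hj (by omega) v h3.1 (by rw [← h3.2, ← h4.2, ← h1, ← h2]; exact hcon)
      · have h5 : p j v ≠ v := by rw [← h4.2.1]; exact hne2
        have h6 := (hd.pm j hj).2 v h5
        rw [← h4.2.1, ← h2, ← hcon, h1, h3.2, SimpleGraph.sdiff_adj] at h6
        exact (hd.cX _ _ h6.1).2.2 (hd.wX _ _ ((hd.em i hi).2 v h3.1)).2.2
    · have h5 : p i v ≠ v := by rw [← h3.2.1]; exact hne1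
      rcases CMP_edge hne2 with h4 | h4
      · have h6 := (hd.pm i hi).2 v h5
        rw [← h3.2.1, ← h1, hcon, h2, h4.2, SimpleGraph.sdiff_adj] at h6
        exact (hd.cX _ _ h6.1).2.2 (hd.wX _ _ ((hd.em j hj).2 v h4.1)).2.2
      · exact hd.pd i hi j hj (by omega) v h5
          (by rw [← h3.2.1, ← h4.2.1, ← h1, ← h2]; exact hcon)
  refine ⟨fun i => (s i).1, ?_, ?_, ?_, ?_⟩
  · intro i hi
    refine ⟨(hs i hi).chg.inv, fun v hv => ?_⟩
    rw [SimpleGraph.sup_adj]
    show W.Adj v ((s i).1 v) ∨ C.Adj v ((s i).1 v)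
    rcases (hs i hi).chg.edg v hv with h1 | h1
    · exact Or.inr (hd.RC h1.1)
    · have hne1 : CMP_m X (H i) (p i) (E i) v ≠ v := by rw [← h1]; exact hv
      rcases CMP_edge hne1 with h3 | h3
      · left
        rw [h1, h3.2]
        exact (hd.em i hi).2 v h3.1
      · right
        have h5 : p i v ≠ v := by rw [← h3.2.1]; exact hne1
        have h6 := (hd.pm i hi).2 v h5
        rw [h1, h3.2.1]
        exact ((SimpleGraph.sdiff_adj _ _ _ _).1 h6).1
  · intro i hi x hx
    constructor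
    · intro h
      by_contra hxH
      exact (hs i hi).cov x (Finset.mem_sdiff.2 ⟨hx, hxH⟩) h
    · intro h
      by_contra hne
      rcases (hs i hi).chg.edg x hne with h1 | h1
      · exact (Finset.mem_sdiff.1 h1.2.1).2 h
      · have hne1 : CMP_m X (H i) (p i) (E i) x ≠ x := by rw [← h1]; exact hne
        rcases CMP_edge hne1 with h3 | h3
        · exact h3.1 (hd.eH i hi x h)
        · exact (Finset.mem_sdiff.1 h3.2.2.1).2 h
  · intro i hi j hj hij v hv
    rcases lt_or_gt_of_ne hij with h | h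
    · intro hcon
      have hcon' : (s i).1 v = (s j).1 v := hcon
      exact hdis j hj i h v (by rw [← hcon']; exact hv) hcon'.symm
    · exact hdis i hi j h v hv
  · intro v w hvw
    obtain ⟨i, hi, h1⟩ := hd.ew v w hvw
    refine ⟨i, hi, ?_⟩
    have h2 : E i v ≠ v := by rw [h1]; exact hvw.ne'
    have h3 := (hs i hi).ee v h2
    show (s i).1 v = w
    rw [(hs i hi).chg.off v h3, CMP_m1 h2, h1]

end step

lemma CMP_mono {V : Type} [Fintype V] {W C E0 : SimpleGraph V} {A X : Finset V} {q f : ℕ}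
    {H : ℕ → Finset V} {h : V → ℕ} {ε ζ θ θ' : ℝ} {U U3 : ℕ} (hθ : θ ≤ θ')
    (hM : MidH W C E0 A X q f H h ε ζ θ U U3) : MidH W C E0 A X q f H h ε ζ θ' U U3 := by
  have hN : (0 : ℝ) ≤ Fintype.card V := Nat.cast_nonneg _
  have h1 : θ * Fintype.card V ≤ θ' * Fintype.card V := mul_le_mul_of_nonneg_right hθ hN
  refine ⟨hM.wX, hM.cX, hM.ql, hM.le, hM.fl, hM.deg, hM.Hs, ?_, hM.cdg, hM.bal, ?_, ?_, hM.siz,
    hM.e0, hM.e0d, hM.e0A, hM.e0B⟩
  · intro x hx
    have := hM.lit x hx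
    exact ⟨this.1.trans h1, this.2.1.trans h1, this.2.2.trans h1⟩
  · exact hM.szA.trans (by nlinarith)
  · exact hM.szB.trans (by nlinarith)

theorem CMP (hPTN : PTN_stmt) (hMRS : MRS_stmt) (hMKO : MKO_stmt) (hEJA : EJA_stmt)
    (hMPS : MPS_stmt) : CMP_stmt := by
  intro ε ζ hε hζ
  obtain ⟨κ, hκ, hMRS1⟩ := hMRS ε ζ hε hζ
  obtain ⟨δ, Nm, hδ, hMPS1⟩ := hMPS (ζ / 4) (ε / 8) (κ / 2) (by positivity) (by positivity)
    (by positivity)
  set δ' := min δ (ζ / 16) with hδ'
  have hδ'0 : 0 < δ' := lt_min hδ (by positivity)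
  obtain ⟨η, hη0, hη1, hη2, hη3, hη4⟩ : ∃ η : ℝ, 0 < η ∧ η ≤ ζ * δ' / 256 ∧ η ≤ κ / 32 ∧
      η ≤ δ / 4 ∧ η ≤ ζ / 96 := by
    refine ⟨min (min (ζ * δ' / 256) (κ / 32)) (min (δ / 4) (ζ / 96)), ?_, ?_, ?_, ?_, ?_⟩
    · refine lt_min (lt_min ?_ ?_) (lt_min ?_ ?_) <;> positivity
    · exact (min_le_left _ _).trans (min_le_left _ _)
    · exact (min_le_left _ _).trans (min_le_right _ _)
    · exact (min_le_right _ _).trans (min_le_left _ _)
    · exact (min_le_right _ _).trans (min_le_right _ _)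
  obtain ⟨ρ, hρ0, hρ1, hρ2, hρ3, hρ4, hρ5⟩ : ∃ ρ : ℝ, 0 < ρ ∧ ρ ≤ δ / 2 ∧ ρ ≤ ζ * δ' / 128 ∧
      ρ ≤ κ / 16 ∧ ρ ≤ ε / 4 ∧ ρ ≤ ζ / 32 := by
    refine ⟨min (min (δ / 2) (ζ * δ' / 128)) (min (κ / 16) (min (ε / 4) (ζ / 32))),
      ?_, ?_, ?_, ?_, ?_, ?_⟩
    · refine lt_min (lt_min ?_ ?_) (lt_min ?_ (lt_min ?_ ?_)) <;> positivity
    · exact (min_le_left _ _).trans (min_le_left _ _)
    · exact (min_le_left _ _).trans (min_le_right _ _)
    · exact (min_le_right _ _).trans (min_le_left _ _)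
    · exact (min_le_right _ _).trans ((min_le_right _ _).trans (min_le_left _ _))
    · exact (min_le_right _ _).trans ((min_le_right _ _).trans (min_le_right _ _))
  obtain ⟨η1, hη10, hMKO1⟩ := hMKO η hη0
  obtain ⟨θ1, N1, hθ1, hMRS2⟩ := hMRS1 η1 hη10
  obtain ⟨θ2, hθ2, hEJA1⟩ := hEJA ε ζ η hε hζ hη0
  refine ⟨min θ1 θ2, lt_min hθ1 hθ2, fun U U3 => ?_⟩
  obtain ⟨N2, hMKO2⟩ := hMKO1 U
  obtain ⟨N3, hEJA2⟩ := hEJA1 U U3
  refine ⟨max (max N1 N2) (max (max N3 Nm) (⌈((U : ℝ) + 1) / ρ⌉₊ + 1)), ?_⟩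
  intro V _ W C E0 A X q f H h hN hM
  have b1 : N1 ≤ Fintype.card V := by
    exact ((le_max_left _ _).trans (le_max_left _ _)).trans hN
  have b2 : N2 ≤ Fintype.card V := by
    exact ((le_max_right _ _).trans (le_max_left _ _)).trans hN
  have b3 : N3 ≤ Fintype.card V := by
    exact ((le_max_left _ _).trans ((le_max_left _ _).trans (le_max_right _ _))).trans hN
  have b4 : Nm ≤ Fintype.card V := by
    exact ((le_max_right _ _).trans ((le_max_left _ _).trans (le_max_right _ _))).trans hN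
  have b5 : ⌈((U : ℝ) + 1) / ρ⌉₊ + 1 ≤ Fintype.card V := by
    exact ((le_max_right _ _).trans (le_max_right _ _)).trans hN
  have hNpos : (0 : ℝ) < Fintype.card V := by
    have : 0 < Fintype.card V := by omega
    exact_mod_cast this
  have hUρ : (U : ℝ) + 1 ≤ ρ * Fintype.card V := by
    have h1 : ((U : ℝ) + 1) / ρ ≤ Fintype.card V := by
      refine (Nat.le_ceil _).trans ?_
      have : ⌈((U : ℝ) + 1) / ρ⌉₊ ≤ Fintype.card V := by omega
      exact_mod_cast this
    rw [div_le_iff₀ hρ0] at h1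
    linarith
  obtain ⟨R, hRC, r1, r2, r3, r4, r5⟩ := hMRS2 V W C E0 A X q f H h U U3 b1
    (CMP_mono (min_le_left _ _) hM)
  have hqN : q ≤ Fintype.card V := by have := hM.le; omega
  obtain ⟨c, hc, c1, c2, c3⟩ := hMKO2 V C R A X q H b2 hM.cX hRC hM.ql hqN
    (fun i hi => (hM.Hs i hi).2.1) r1 r2
  obtain ⟨E, e1, e2, e3, e4, e5, e6, e7⟩ := hEJA2 V W C E0 R A X q f H h c b3
    (CMP_mono (min_le_right _ _) hM) hc
  have hp : ∀ i, MatIn (C \ R) (ptn (C \ R) c i) := fun i => (hPTN V (C \ R) q c hc i).1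
  have hph : ∀ i v, ptn (C \ R) c i v ≠ v ↔ has (C \ R) c v i :=
    fun i v => (hPTN V (C \ R) q c hc i).2.2 v
  have hpw : ∀ i v w, (C \ R).Adj v w → (ptn (C \ R) c i v = w ↔ c s(v, w) = i) :=
    fun i v w => (hPTN V (C \ R) q c hc i).2.1 v w
  have hd : CMP_data W C R A X q U H E (fun i => ptn (C \ R) c i) ε ζ κ η := by
    refine ⟨hM.wX, hM.cX, hRC, hqN, fun i hi => (hM.Hs i hi).2.1, fun i _ => hp i, ?_, e1, e2, e3,
      e4, e5, e6, ?_, ?_, ?_, e7, ?_, r4, r5, hM.siz⟩
    · intro i _ j _ hij v hv heq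
      have h1 := (hp i).2 v hv
      have h2 := (hpw i v _ h1).1 rfl
      have h3 := (hpw j v _ h1).1 heq.symm
      exact hij (h2.symm.trans h3)
    · intro i hi
      have h1 := c1 i hi
      unfold mis at h1
      have h2 : (X.filter fun x => ptn (C \ R) c i x = x) =
          (X.filter fun x => ¬ has (C \ R) c x i) := by
        apply Finset.filter_congr
        intro x _
        rw [← hph i x, not_not]
      rw [h2]
      exact h1
    · intro x hx
      have h1 := c2 x hx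
      have h2 : ((Finset.range q).filter fun i => ptn (C \ R) c i x = x) =
          ((Finset.range q).filter fun i => ¬ has (C \ R) c x i) := by
        apply Finset.filter_congr
        intro i _
        rw [← hph i x, not_not]
      rw [h2]
      exact h1
    · intro x
      refine le_trans ?_ (c3 x)
      have h2 : ((Finset.range q).filter fun i => ptn (C \ R) c i x ∈ H i ∧
          ptn (C \ R) c i x ≠ x) ⊆ ((Finset.range q).filter fun i => ∃ w ∈ H i,
          (C \ R).Adj x w ∧ c s(x, w) = i) := by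
        intro i hi
        rw [Finset.mem_filter] at hi ⊢
        have h3 := (hp i).2 x hi.2.2
        exact ⟨hi.1, _, hi.2.1, h3, (hpw i x _ h3).1 rfl⟩
      exact_mod_cast Finset.card_le_card h2
    · intro x hx
      have h1 : ζ * Fintype.card V ≤ f := hM.fl
      have h2 : (f : ℝ) ≤ 2 * dg R x := by exact_mod_cast r3 x hx
      linarith
  have hNη : 0 < η * Fintype.card V := by positivity
  have m1 : η * Fintype.card V ≤ ζ * δ' / 256 * Fintype.card V :=
    mul_le_mul_of_nonneg_right hη1 hNpos.le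
  have m2 : η * Fintype.card V ≤ κ / 32 * Fintype.card V :=
    mul_le_mul_of_nonneg_right hη2 hNpos.le
  have m3 : η * Fintype.card V ≤ δ / 4 * Fintype.card V :=
    mul_le_mul_of_nonneg_right hη3 hNpos.le
  have m4 : η * Fintype.card V ≤ ζ / 96 * Fintype.card V :=
    mul_le_mul_of_nonneg_right hη4 hNpos.le
  have k1 : ρ * Fintype.card V ≤ δ / 2 * Fintype.card V :=
    mul_le_mul_of_nonneg_right hρ1 hNpos.le
  have k2 : ρ * Fintype.card V ≤ ζ * δ' / 128 * Fintype.card V :=
    mul_le_mul_of_nonneg_right hρ2 hNpos.le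
  have k3 : ρ * Fintype.card V ≤ κ / 16 * Fintype.card V :=
    mul_le_mul_of_nonneg_right hρ3 hNpos.le
  have k4 : ρ * Fintype.card V ≤ ε / 4 * Fintype.card V :=
    mul_le_mul_of_nonneg_right hρ4 hNpos.le
  have k5 : ρ * Fintype.card V ≤ ζ / 32 * Fintype.card V :=
    mul_le_mul_of_nonneg_right hρ5 hNpos.le
  have hU0 : (0 : ℝ) ≤ U := Nat.cast_nonneg _
  obtain ⟨s, hs⟩ := CMP_seq ((id, ∅) : (V → V) × Finset V)
    (fun i s a => CMP_step R X H E (fun i => ptn (C \ R) c i) ζ i s a) q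
    (fun i s s' a hss h => CMP_loc R X H E _ ζ i s s' a hss h)
    (fun i hi s hs => CMP_dostep hd hη0 hζ hNpos
      (fun A Z EE S R m hctx => hMPS1 V A Z EE S R m b4 hctx)
      (by linarith) (by rw [← hδ']; linarith) (by linarith) (by linarith) (by linarith)
      (by linarith) hi hs)
  exact CMP_final hd hs

end

end Pool.Agent.OF
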